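import Mathlib

set_option autoImplicit false

namespace Pool.Agent.Y801

open Finset

lemma det_bound {ι : Type*} [Fintype ι] [DecidableEq ι] (A : Matrix ι ι ℝ) (b : ι → ℝ)
    (h : ∀ i j, |A i j| ≤ b j) : |A.det| ≤ (Fintype.card ι).factorial * ∏ j, b j := by
  rw [Matrix.det_apply']
  refine (abs_sum_le_sum_abs _ _).trans ?_
  have : ((Fintype.card ι).factorial : ℝ) = ((univ : Finset (Equiv.Perm ι)).card : ℝ) := by
    rw [card_univ, Fintype.card_perm]
  rw [this, ← nsmul_eq_mul]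
  refine sum_le_card_nsmul _ _ _ fun σ _ => ?_
  rw [abs_mul, abs_prod]
  have h1 : |((Equiv.Perm.sign σ : ℤ) : ℝ)| = 1 := by
    rcases Int.units_eq_one_or (Equiv.Perm.sign σ) with h | h <;> simp [h]
  rw [h1, one_mul]
  exact prod_le_prod (fun _ _ => abs_nonneg _) fun i _ => h _ _

lemma exists_det_ne_zero {α ι : Type} [Fintype ι] [DecidableEq ι] (v : α → ι → ℝ)
    (h : ∀ c : ι → ℝ, (∀ x, ∑ i, c i * v x i = 0) → c = 0) :
    ∃ r : ι → α, (Matrix.of fun i j => v (r i) j).det ≠ 0 := by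
  obtain ⟨κ, a, ha, hsp, hli⟩ := exists_linearIndependent' ℝ v
  have htop : Submodule.span ℝ (Set.range v) = ⊤ := by
    by_contra hne
    obtain ⟨f, hf0, hf⟩ := Submodule.exists_le_ker_of_lt_top _ (lt_top_iff_ne_top.mpr hne)
    apply hf0
    have hfc : ∀ u : ι → ℝ, f u = ∑ i, f (Pi.single i 1) * u i := by
      intro u
      conv_lhs => rw [← Finset.univ_sum_single u]
      rw [map_sum]
      refine sum_congr rfl fun i _ => ?_
      have : (Pi.single i (u i) : ι → ℝ) = u i • Pi.single i 1 := by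
        rw [← Pi.single_smul]; simp
      rw [this, map_smul, smul_eq_mul, mul_comm]
    have hc := h (fun i => f (Pi.single i 1)) (fun x => by
      rw [← hfc]
      exact LinearMap.mem_ker.mp (hf (Submodule.subset_span ⟨x, rfl⟩)))
    ext i
    simpa using congrFun hc i
  let b : Module.Basis κ ℝ (ι → ℝ) := Module.Basis.mk hli (by rw [hsp, htop])
  let e : ι ≃ κ := (Pi.basisFun ℝ ι).indexEquiv b
  refine ⟨a ∘ e, ?_⟩
  have hli2 : LinearIndependent ℝ (fun i => v ((a ∘ e) i)) := hli.comp e e.injective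
  have := (Matrix.linearIndependent_rows_iff_isUnit (A := Matrix.of fun i j => v ((a ∘ e) i) j)).mp
    hli2
  rw [Matrix.isUnit_iff_isUnit_det] at this
  exact this.ne_zero


/-- The tail of the binomial expansion. -/
lemma tail_bound (w m : ℕ) (hm : m ≤ w) (h x0 L : ℝ) (hh : 0 ≤ h) (hx0 : 0 ≤ x0) (hL : 1 ≤ L) :
    0 ≤ (h + x0) ^ w - ∑ r ∈ range m, h ^ r * x0 ^ (w - r) * (w.choose r : ℝ) ∧
    L ^ m * ((h + x0) ^ w - ∑ r ∈ range m, h ^ r * x0 ^ (w - r) * (w.choose r : ℝ))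
      ≤ (L * h + x0) ^ w := by
  have hsplit : (h + x0) ^ w - ∑ r ∈ range m, h ^ r * x0 ^ (w - r) * (w.choose r : ℝ)
      = ∑ r ∈ Ico m (w + 1), h ^ r * x0 ^ (w - r) * (w.choose r : ℝ) := by
    rw [add_pow, ← Finset.sum_range_add_sum_Ico _ (by omega : m ≤ w + 1)]
    ring
  rw [hsplit]
  constructor
  · exact sum_nonneg fun r _ => by positivity
  · rw [mul_sum, add_pow]
    refine (sum_le_sum (g := fun r => (L * h) ^ r * x0 ^ (w - r) * (w.choose r : ℝ)) ?_).trans ?_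
    · intro r hr
      have hr' := (mem_Ico.mp hr).1
      rw [mul_pow]
      have : L ^ m ≤ L ^ r := pow_le_pow_right₀ hL hr'
      have h2 : 0 ≤ h ^ r * x0 ^ (w - r) * (w.choose r : ℝ) := by positivity
      calc L ^ m * (h ^ r * x0 ^ (w - r) * (w.choose r : ℝ))
          ≤ L ^ r * (h ^ r * x0 ^ (w - r) * (w.choose r : ℝ)) := by gcongr
        _ = L ^ r * h ^ r * x0 ^ (w - r) * (w.choose r : ℝ) := by ring
    · apply sum_le_sum_of_subset_of_nonneg
      · intro r hr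
        exact mem_range.mpr (mem_Ico.mp hr).2
      · intro r _ _
        positivity

/-- The entries after the column operation. -/
lemma entry_eq (T w a : ℕ) (ha : a < T) (h x0 n e k : ℝ) (hn : n ≠ 0)
    (heq : (h + x0) ^ w * e = n + k) :
    h ^ a - ∑ b : Fin T, h ^ (b : ℕ) * e *
        (if a ≤ (b : ℕ) then (w.choose ((b : ℕ) - a) : ℝ) * x0 ^ (w - ((b : ℕ) - a)) / n else 0)
      = h ^ a * (e / n * ((h + x0) ^ w -
          ∑ r ∈ range (T - a), h ^ r * x0 ^ (w - r) * (w.choose r : ℝ)) - k / n) := by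
  have h1 : ∑ b : Fin T, h ^ (b : ℕ) * e *
        (if a ≤ (b : ℕ) then (w.choose ((b : ℕ) - a) : ℝ) * x0 ^ (w - ((b : ℕ) - a)) / n else 0)
      = h ^ a * (e / n) * ∑ r ∈ range (T - a), h ^ r * x0 ^ (w - r) * (w.choose r : ℝ) := by
    rw [Fin.sum_univ_eq_sum_range (fun b => h ^ b * e *
        (if a ≤ b then (w.choose (b - a) : ℝ) * x0 ^ (w - (b - a)) / n else 0)) T]
    rw [← Finset.sum_range_add_sum_Ico _ ha.le, Finset.sum_Ico_eq_sum_range]
    rw [Finset.sum_eq_zero, zero_add, mul_sum]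
    · refine sum_congr rfl fun r _ => ?_
      rw [if_pos (by omega), Nat.add_sub_cancel_left, pow_add]
      ring
    · intro b hb
      rw [if_neg (by have := mem_range.mp hb; omega), mul_zero]
  rw [h1]
  have h2 : e / n * (h + x0) ^ w = 1 + k / n := by
    field_simp
    linarith
  have : h ^ a * (e / n * ((h + x0) ^ w -
          ∑ r ∈ range (T - a), h ^ r * x0 ^ (w - r) * (w.choose r : ℝ)) - k / n)
      = h ^ a * (e / n * (h + x0) ^ w - k / n) - h ^ a * (e / n) *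
        ∑ r ∈ range (T - a), h ^ r * x0 ^ (w - r) * (w.choose r : ℝ) := by ring
  rw [this, h2]
  ring

lemma final_ineq (T : ℕ) (hT : 1 ≤ T) (l : ℝ) (hl : 2 * T ≤ l) :
    ((2 * T).factorial : ℝ) * ((∏ a : Fin T, (7 * l ^ (a : ℕ) / (16 * l ^ 2) ^ (T - (a : ℕ)))) *
      ∏ b : Fin T, (l ^ (b : ℕ) * 2 ^ T)) < 1 := by
  have hT' : (1 : ℝ) ≤ T := by exact_mod_cast hT
  have hl1 : 1 ≤ l := by linarith
  have hl0 : 0 < l := by linarith
  have e1 : ∏ a : Fin T, (7 * l ^ (a : ℕ) / (16 * l ^ 2) ^ (T - (a : ℕ)))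
      = 7 ^ T * (∏ a : Fin T, l ^ (a : ℕ)) / ∏ a : Fin T, (16 * l ^ 2) ^ (T - (a : ℕ)) := by
    rw [prod_div_distrib, prod_mul_distrib, prod_const, card_univ, Fintype.card_fin]
  have e2 : ∏ b : Fin T, (l ^ (b : ℕ) * (2:ℝ) ^ T) = (∏ b : Fin T, l ^ (b : ℕ)) * (2 ^ T) ^ T := by
    rw [prod_mul_distrib, prod_const, card_univ, Fintype.card_fin]
  have e3 : (∏ b : Fin T, l ^ (b : ℕ)) * (∏ b : Fin T, l ^ (b : ℕ)) = l ^ (T * (T - 1)) := by
    rw [prod_pow_eq_pow_sum, Fin.sum_univ_eq_sum_range (fun b => b) T, ← pow_add,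
      ← Finset.sum_range_id_mul_two, mul_two]
  have e4 : ∏ a : Fin T, (16 * l ^ 2) ^ (T - (a : ℕ)) = (4 * l) ^ (T * (T + 1)) := by
    rw [prod_pow_eq_pow_sum, Fin.sum_univ_eq_sum_range (fun b => T - b) T]
    have : (16 * l ^ 2) = (4 * l) ^ 2 := by ring
    rw [this, ← pow_mul]
    congr 1
    have h1 : ∑ b ∈ range T, (T - b) = ∑ b ∈ range (T + 1), b := by
      rw [Finset.sum_range_succ', add_zero, ← Finset.sum_range_reflect]
      apply sum_congr rfl
      intro i hi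
      have := mem_range.mp hi
      omega
    rw [h1, mul_comm, Finset.sum_range_id_mul_two]
    simp [mul_comm]
  rw [e1, e2, e4]
  have e5 : ((2 * T).factorial : ℝ) ≤ l ^ (2 * T) := by
    calc ((2 * T).factorial : ℝ) ≤ ((2 * T : ℕ) : ℝ) ^ (2 * T) := by
          exact_mod_cast Nat.factorial_le_pow (2 * T)
      _ ≤ l ^ (2 * T) := by
          apply pow_le_pow_left₀ (by positivity)
          push_cast; exact hl
  have e6 : ((2 * T).factorial : ℝ) * ((7 ^ T * (∏ a : Fin T, l ^ (a : ℕ)) / (4 * l) ^ (T * (T + 1))) *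
      ((∏ b : Fin T, l ^ (b : ℕ)) * (2 ^ T) ^ T))
      = ((2 * T).factorial : ℝ) * (7 ^ T * (2 ^ T) ^ T * l ^ (T * (T - 1))) /
        (4 * l) ^ (T * (T + 1)) := by
    rw [← e3]; ring
  rw [e6, div_lt_one (by positivity)]
  have e7 : l ^ (2 * T) * l ^ (T * (T - 1)) = l ^ (T * (T + 1)) := by
    rw [← pow_add]
    congr 1
    obtain ⟨m, rfl⟩ := Nat.exists_eq_add_of_le hT
    simp only [Nat.add_sub_cancel_left]
    ring
  calc ((2 * T).factorial : ℝ) * (7 ^ T * (2 ^ T) ^ T * l ^ (T * (T - 1)))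
      ≤ l ^ (2 * T) * (7 ^ T * (2 ^ T) ^ T * l ^ (T * (T - 1))) := by gcongr
    _ = (7 ^ T * (2 ^ T) ^ T) * l ^ (T * (T + 1)) := by rw [← e7]; ring
    _ < (4 : ℝ) ^ (T * (T + 1)) * l ^ (T * (T + 1)) := by
        apply mul_lt_mul_of_pos_right _ (by positivity)
        have h7 : (7 : ℝ) ^ T < 8 ^ T := pow_lt_pow_left₀ (by norm_num) (by norm_num) (by omega)
        have h8 : (8 : ℝ) ^ T = 2 ^ (3 * T) := by rw [pow_mul]; norm_num
        have h4 : (4 : ℝ) ^ (T * (T + 1)) = 2 ^ (2 * (T * (T + 1))) := by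
          rw [pow_mul (2 : ℝ) 2]; norm_num
        rw [h4, ← pow_mul]
        calc (7 : ℝ) ^ T * 2 ^ (T * T) < 2 ^ (3 * T) * 2 ^ (T * T) := by
              rw [← h8]
              exact mul_lt_mul_of_pos_right h7 (by positivity)
          _ = 2 ^ (3 * T + T * T) := by rw [pow_add]
          _ ≤ 2 ^ (2 * (T * (T + 1))) := by
              apply pow_le_pow_right₀ (by norm_num)
              nlinarith
    _ = (4 * l) ^ (T * (T + 1)) := by rw [mul_pow]

/-- The interpolation determinant is smaller than `1`. -/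
theorem det_lt_one (T w : ℕ) (hT : 1 ≤ T) (hTw : T ≤ w) (n x0 l : ℝ) (hn : 0 < n) (hx0 : 0 < x0)
    (hl : 2 * T ≤ l) (h e k : Fin T ⊕ Fin T → ℝ) (hh0 : ∀ i, 0 ≤ h i) (hh : ∀ i, h i ≤ l)
    (he0 : ∀ i, 0 ≤ e i) (he : ∀ i, e i ≤ 2 ^ T) (hk0 : ∀ i, 0 ≤ k i)
    (heq : ∀ i, (h i + x0) ^ w * e i = n + k i)
    (hkn : ∀ i, k i * (16 * l ^ 2) ^ T ≤ n)
    (hpow : (16 * l ^ 2 * l + x0) ^ w ≤ 3 * x0 ^ w) :
    |(Matrix.of fun (i j : Fin T ⊕ Fin T) =>
      Sum.elim (fun a : Fin T => h i ^ (a : ℕ)) (fun b : Fin T => h i ^ (b : ℕ) * e i) j).det| < 1 := by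
  classical
  have hT' : (1 : ℝ) ≤ T := by exact_mod_cast hT
  have hl1 : 1 ≤ l := by linarith
  have hL1 : 1 ≤ 16 * l ^ 2 := by nlinarith
  set A : Matrix (Fin T ⊕ Fin T) (Fin T ⊕ Fin T) ℝ := Matrix.of fun i j =>
      Sum.elim (fun a : Fin T => h i ^ (a : ℕ)) (fun b : Fin T => h i ^ (b : ℕ) * e i) j with hA
  set Cm : Matrix (Fin T) (Fin T) ℝ := Matrix.of fun b a =>
      -(if (a : ℕ) ≤ (b : ℕ) then
        (w.choose ((b : ℕ) - a) : ℝ) * x0 ^ (w - ((b : ℕ) - a)) / n else 0) with hCm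
  set U : Matrix (Fin T ⊕ Fin T) (Fin T ⊕ Fin T) ℝ := Matrix.fromBlocks 1 0 Cm 1 with hU
  have hUdet : U.det = 1 := by
    rw [hU, Matrix.det_fromBlocks_zero₁₂, Matrix.det_one, mul_one]
  have hAU : (A * U).det = A.det := by rw [Matrix.det_mul, hUdet, mul_one]
  rw [← hAU]
  set bd : Fin T ⊕ Fin T → ℝ := Sum.elim
    (fun a : Fin T => 7 * l ^ (a : ℕ) / (16 * l ^ 2) ^ (T - (a : ℕ)))
    (fun b : Fin T => l ^ (b : ℕ) * 2 ^ T) with hbd
  have hle : |(A * U).det| ≤ (Fintype.card (Fin T ⊕ Fin T)).factorial * ∏ j, bd j := by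
    apply det_bound
    intro i j
    rw [Matrix.mul_apply, Fintype.sum_sum_type]
    rcases j with a | b
    · have h1 : ∑ a', A i (Sum.inl a') * U (Sum.inl a') (Sum.inl a) = h i ^ (a : ℕ) := by
        simp only [hU, Matrix.fromBlocks_apply₁₁, Matrix.one_apply, hA, Matrix.of_apply,
          Sum.elim_inl, mul_ite, mul_one, mul_zero]
        simp
      have h2 : ∑ b', A i (Sum.inr b') * U (Sum.inr b') (Sum.inl a)
          = - ∑ b : Fin T, h i ^ (b : ℕ) * e i *
            (if (a : ℕ) ≤ (b : ℕ) then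
              (w.choose ((b : ℕ) - a) : ℝ) * x0 ^ (w - ((b : ℕ) - a)) / n else 0) := by
        simp only [hU, Matrix.fromBlocks_apply₂₁, hCm, hA, Matrix.of_apply, Sum.elim_inr, mul_neg,
          Finset.sum_neg_distrib]
      rw [h1, h2, ← sub_eq_add_neg, entry_eq T w a a.2 (h i) x0 n (e i) (k i) hn.ne' (heq i)]
      simp only [hbd, Sum.elim_inl]
      obtain ⟨t1, t2⟩ := tail_bound w (T - a) (by omega) (h i) x0 (16 * l ^ 2) (hh0 i) hx0.le hL1
      set tl := (h i + x0) ^ w - ∑ r ∈ range (T - a), h i ^ r * x0 ^ (w - r) * (w.choose r : ℝ)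
        with htl
      set Lm : ℝ := (16 * l ^ 2) ^ (T - (a : ℕ)) with hLm
      have hLmpos : 0 < Lm := by positivity
      have hLmT : Lm ≤ (16 * l ^ 2) ^ T := pow_le_pow_right₀ hL1 (by omega)
      have hLT1 : 1 ≤ (16 * l ^ 2) ^ T := one_le_pow₀ hL1
      have hkn' : k i ≤ n := by
        calc k i = k i * 1 := (mul_one _).symm
          _ ≤ k i * (16 * l ^ 2) ^ T := mul_le_mul_of_nonneg_left hLT1 (hk0 i)
          _ ≤ n := hkn i
      have t3 : Lm * tl ≤ 3 * x0 ^ w := by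
        refine t2.trans (le_trans ?_ hpow)
        apply pow_le_pow_left₀ (by have := hh0 i; positivity)
        have := mul_le_mul_of_nonneg_left (hh i) (by positivity : (0:ℝ) ≤ 16 * l ^ 2)
        linarith
      have t4 : e i * (Lm * tl) ≤ 6 * n := by
        calc e i * (Lm * tl) ≤ e i * (3 * x0 ^ w) := mul_le_mul_of_nonneg_left t3 (he0 i)
          _ ≤ e i * (3 * (h i + x0) ^ w) := by
              apply mul_le_mul_of_nonneg_left _ (he0 i)
              have : x0 ^ w ≤ (h i + x0) ^ w := pow_le_pow_left₀ hx0.le (by linarith [hh0 i]) w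
              linarith
          _ = 3 * ((h i + x0) ^ w * e i) := by ring
          _ = 3 * (n + k i) := by rw [heq i]
          _ ≤ 6 * n := by linarith
      have t5 : e i / n * tl ≤ 6 / Lm := by
        rw [le_div_iff₀ hLmpos]
        rw [div_mul_eq_mul_div, div_mul_eq_mul_div, div_le_iff₀ hn]
        linarith [t4]
      have t6 : k i / n ≤ 1 / Lm := by
        rw [div_le_div_iff₀ hn hLmpos]
        calc k i * Lm ≤ k i * (16 * l ^ 2) ^ T := mul_le_mul_of_nonneg_left hLmT (hk0 i)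
          _ ≤ n := hkn i
          _ = 1 * n := (one_mul n).symm
      have t7 : |e i / n * tl - k i / n| ≤ 7 / Lm := by
        have p1 : 0 ≤ e i / n * tl := mul_nonneg (div_nonneg (he0 i) hn.le) t1
        have p2 : 0 ≤ k i / n := div_nonneg (hk0 i) hn.le
        have p3 : 7 / Lm = 6 / Lm + 1 / Lm := by ring
        rw [abs_le]
        constructor <;> [skip; skip] <;> rw [p3] <;> linarith [div_nonneg (by norm_num : (0:ℝ) ≤ 6) hLmpos.le]
      rw [abs_mul, abs_of_nonneg (pow_nonneg (hh0 i) _)]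
      calc h i ^ (a : ℕ) * |e i / n * tl - k i / n| ≤ l ^ (a : ℕ) * (7 / Lm) := by
            apply mul_le_mul (pow_le_pow_left₀ (hh0 i) (hh i) _) t7 (abs_nonneg _) (by positivity)
        _ = 7 * l ^ (a : ℕ) / Lm := by ring
    · have h1 : ∑ a', A i (Sum.inl a') * U (Sum.inl a') (Sum.inr b) = 0 := by
        simp [hU]
      have h2 : ∑ b', A i (Sum.inr b') * U (Sum.inr b') (Sum.inr b)
          = h i ^ (b : ℕ) * e i := by
        simp only [hU, Matrix.fromBlocks_apply₂₂, Matrix.one_apply, hA, Matrix.of_apply,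
          Sum.elim_inr, mul_ite, mul_one, mul_zero]
        simp
      rw [h1, h2, zero_add]
      simp only [hbd, Sum.elim_inr]
      rw [abs_of_nonneg (mul_nonneg (pow_nonneg (hh0 i) _) (he0 i))]
      exact mul_le_mul (pow_le_pow_left₀ (hh0 i) (hh i) _) (he i) (he0 i) (by positivity)
  refine lt_of_le_of_lt hle ?_
  rw [Fintype.prod_sum_type, Fintype.card_sum, Fintype.card_fin, ← two_mul]
  exact final_ineq T hT l hl

end Pool.Agent.Y801
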