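import Mathlib

set_option autoImplicit false

namespace Pool.Agent.Y801

open Polynomial Finset

/-- The operator `G ↦ t G' - c G`. -/
noncomputable def th (c : ℕ) (G : ℝ[X]) : ℝ[X] := X * derivative G - C (c : ℝ) * G

lemma th_coeff (c : ℕ) (G : ℝ[X]) (j : ℕ) :
    (th c G).coeff j = ((j : ℝ) - c) * G.coeff j := by
  unfold th
  rw [coeff_sub, coeff_C_mul]
  rcases j with _ | j
  · simp
  · rw [coeff_X_mul, coeff_derivative]
    push_cast
    ring

lemma rolle_th (c : ℕ) (G : ℝ[X]) {a b : ℝ} (ha : 0 < a) (hab : a < b)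
    (h1 : G.eval a = 0) (h2 : G.eval b = 0) :
    ∃ ξ ∈ Set.Ioo a b, (th c G).eval ξ = 0 := by
  have hpos : ∀ t ∈ Set.Icc a b, t ^ c ≠ 0 := fun t ht =>
    pow_ne_zero _ (ne_of_gt (lt_of_lt_of_le ha ht.1))
  have hcont : ContinuousOn (fun t => G.eval t / t ^ c) (Set.Icc a b) := by
    apply ContinuousOn.div
    · exact G.continuous.continuousOn
    · exact (continuous_pow c).continuousOn
    · exact hpos
  obtain ⟨ξ, hξ, hd⟩ := exists_deriv_eq_zero hab hcont (by simp [h1, h2])
  refine ⟨ξ, hξ, ?_⟩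
  have hξ0 : 0 < ξ := lt_trans ha hξ.1
  have hne : ξ ^ c ≠ 0 := pow_ne_zero _ hξ0.ne'
  have hder : deriv (fun t => G.eval t / t ^ c) ξ
      = ((derivative G).eval ξ * ξ ^ c - G.eval ξ * (c * ξ ^ (c - 1))) / (ξ ^ c) ^ 2 := by
    have e1 : HasDerivAt (fun t => G.eval t) ((derivative G).eval ξ) ξ := G.hasDerivAt ξ
    have e2 : HasDerivAt (fun t : ℝ => t ^ c) (c * ξ ^ (c - 1)) ξ := hasDerivAt_pow c ξ
    exact (e1.div e2 hne).deriv
  rw [hder] at hd
  have hnum : (derivative G).eval ξ * ξ ^ c - G.eval ξ * (c * ξ ^ (c - 1)) = 0 := by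
    rcases div_eq_zero_iff.mp hd with h | h
    · exact h
    · exact absurd h (pow_ne_zero _ hne)
  have hmul : ξ * (c * ξ ^ (c - 1)) = c * ξ ^ c := by
    rcases c with _ | c
    · simp
    · simp only [Nat.add_sub_cancel]
      rw [pow_succ]; ring
  have : (ξ * (derivative G).eval ξ - c * G.eval ξ) * ξ ^ c = 0 := by
    have := congrArg (fun z => ξ * z) hnum
    simp only [mul_zero] at this
    calc (ξ * (derivative G).eval ξ - c * G.eval ξ) * ξ ^ c
        = ξ * (derivative G).eval ξ * ξ ^ c - G.eval ξ * (c * ξ ^ c) := by ring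
      _ = ξ * (derivative G).eval ξ * ξ ^ c - G.eval ξ * (ξ * (c * ξ ^ (c - 1))) := by rw [hmul]
      _ = ξ * ((derivative G).eval ξ * ξ ^ c - G.eval ξ * (c * ξ ^ (c - 1))) := by ring
      _ = 0 := this
  have h3 := (mul_eq_zero.mp this).resolve_right hne
  unfold th
  simpa using h3

/-- Iterating `th` with parameters `w, w+1, ..., w+m-1`. -/
noncomputable def Th (w : ℕ) : ℕ → ℝ[X] → ℝ[X]
  | 0, G => G
  | m + 1, G => th (w + m) (Th w m G)

lemma Th_coeff (w m : ℕ) (G : ℝ[X]) (j : ℕ) :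
    (Th w m G).coeff j = (∏ i ∈ range m, ((j : ℝ) - (w + i))) * G.coeff j := by
  induction m with
  | zero => simp [Th]
  | succ m ih =>
    rw [Th, th_coeff, ih, prod_range_succ]
    push_cast
    ring

lemma th_zeros (c m : ℕ) (G : ℝ[X]) (x : Fin (m + 2) → ℝ) (hx : StrictMono x)
    (h0 : 0 < x 0) (hz : ∀ i, G.eval (x i) = 0) :
    ∃ y : Fin (m + 1) → ℝ, StrictMono y ∧ x 0 < y 0 ∧ y (Fin.last m) < x (Fin.last (m + 1)) ∧
      ∀ i, (th c G).eval (y i) = 0 := by
  have hpos : ∀ i, 0 < x i := fun i => lt_of_lt_of_le h0 (hx.monotone (Fin.zero_le i))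
  have key : ∀ i : Fin (m + 1), ∃ ξ ∈ Set.Ioo (x i.castSucc) (x i.succ), (th c G).eval ξ = 0 :=
    fun i => rolle_th c G (hpos _) (hx (Fin.castSucc_lt_succ)) (hz _) (hz _)
  choose y hy hyz using key
  refine ⟨y, ?_, ?_, ?_, hyz⟩
  · rw [Fin.strictMono_iff_lt_succ]
    intro i
    have h1 := (hy i.castSucc).2
    have h2 := (hy i.succ).1
    have : x (i.castSucc).succ = x (i.succ).castSucc := by
      congr 1
    linarith
  · have := (hy 0).1
    simpa using this
  · have := (hy (Fin.last m)).2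
    simpa using this

lemma Th_zero (w : ℕ) : ∀ (m r : ℕ) (G : ℝ[X]) (x : Fin (m + r + 1) → ℝ), StrictMono x →
    0 < x 0 → (∀ i, G.eval (x i) = 0) →
    ∃ y : Fin (r + 1) → ℝ, StrictMono y ∧ x 0 ≤ y 0 ∧ y (Fin.last r) ≤ x (Fin.last (m + r)) ∧
      ∀ i, (Th w m G).eval (y i) = 0 := by
  intro m
  induction m with
  | zero =>
    intro r G x hx h0 hz
    refine ⟨fun i => x (Fin.cast (by omega) i), ?_, ?_, ?_, ?_⟩
    · intro i j hij
      exact hx (by simpa using hij)
    · exact le_of_eq (by congr 1)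
    · refine le_of_eq ?_
      show x _ = x _
      congr 1
      ext; simp
    · intro i; simpa [Th] using hz _
  | succ m ih =>
    intro r G x hx h0 hz
    obtain ⟨y, hy, h1, h2, h3⟩ := ih (r + 1) G (fun i => x (Fin.cast (by omega) i))
      (fun i j hij => hx (by simpa using hij)) (by
        have : (Fin.cast (by omega) (0 : Fin (m + (r + 1) + 1)) : Fin (m + 1 + r + 1)) = 0 := by
          ext; simp
        rw [this]; exact h0) (fun i => hz _)
    obtain ⟨u, hu, g1, g2, g3⟩ := th_zeros (w + m) r (Th w m G) y hy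
      (by
        have : (Fin.cast (by omega) (0 : Fin (m + (r + 1) + 1)) : Fin (m + 1 + r + 1)) = 0 := by
          ext; simp
        simp only [this] at h1
        linarith) h3
    refine ⟨u, hu, ?_, ?_, ?_⟩
    · have : (Fin.cast (by omega) (0 : Fin (m + (r + 1) + 1)) : Fin (m + 1 + r + 1)) = 0 := by
        ext; simp
      simp only [this] at h1
      linarith
    · have : (Fin.cast (by omega) (Fin.last (m + (r + 1))) : Fin (m + 1 + r + 1))
          = Fin.last (m + 1 + r) := by
        ext; simp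
      simp only [this] at h2
      linarith
    · intro i
      rw [Th]
      exact g3 i

/-- One zero of `Th w m G` between the extreme zeros. -/
lemma Th_one_zero (w m : ℕ) (G : ℝ[X]) (x : Fin (m + 1) → ℝ) (hx : StrictMono x)
    (h0 : 0 < x 0) (hz : ∀ i, G.eval (x i) = 0) :
    ∃ ξ, x 0 ≤ ξ ∧ ξ ≤ x (Fin.last m) ∧ (Th w m G).eval ξ = 0 := by
  obtain ⟨y, -, h1, h2, h3⟩ := Th_zero w m 0 G x hx h0 hz
  exact ⟨y 0, h1, h2, h3 0⟩

/-- The window estimate: if `P + n Q / t^w` takes the values `δ i` at the `T + 1` points `x i`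
(spaced by at least `1`), then the polynomial `R` with coefficients
`q_a ∏ (a - w - i)` is small at some point `ξ`. -/
lemma window (T w : ℕ) (hTw : T ≤ w) (P Q : ℝ[X]) (hP : P.degree < T) (hQ : Q.degree < T)
    (n : ℝ) (x : Fin (T + 1) → ℝ) (hx : StrictMono x) (h0 : 0 < x 0)
    (hgap : ∀ i j, i ≠ j → 1 ≤ |x i - x j|) :
    ∃ ξ, x 0 ≤ ξ ∧ ξ ≤ x (Fin.last T) ∧
      |n * (Th w T Q).eval ξ| ≤ (∑ i, |P.eval (x i) + n * Q.eval (x i) / (x i) ^ w|) *
        (T.factorial : ℝ) * ξ ^ (w + T) := by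
  classical
  set δ : Fin (T + 1) → ℝ := fun i => P.eval (x i) + n * Q.eval (x i) / (x i) ^ w with hδ
  have hinj : Set.InjOn x ((univ : Finset (Fin (T + 1))) : Set (Fin (T + 1))) :=
    hx.injective.injOn
  set S := Lagrange.interpolate univ x δ with hS
  have hSdeg : S.degree < ((univ : Finset (Fin (T + 1))).card : ℕ) :=
    Lagrange.degree_interpolate_lt δ hinj
  have hSev : ∀ i, S.eval (x i) = δ i := fun i =>
    Lagrange.eval_interpolate_at_node δ hinj (mem_univ i)
  have hpos : ∀ i, 0 < x i := fun i => lt_of_lt_of_le h0 (hx.monotone (Fin.zero_le i))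
  set G : ℝ[X] := X ^ w * (P - S) + C n * Q with hG
  have hGz : ∀ i, G.eval (x i) = 0 := by
    intro i
    have hne : (x i) ^ w ≠ 0 := pow_ne_zero _ (hpos i).ne'
    simp only [hG, eval_add, eval_mul, eval_pow, eval_X, eval_sub, eval_C, hSev, hδ]
    field_simp
    ring
  obtain ⟨ξ, hξ1, hξ2, hξ3⟩ := Th_one_zero w T G x hx h0 hGz
  set R : ℝ[X] := Th w T Q with hR
  refine ⟨ξ, hξ1, hξ2, ?_⟩
  have hs : |S.coeff T| ≤ ∑ i, |δ i| := by
    have h := Lagrange.coeff_eq_sum hinj hSdeg
    rw [card_univ, Fintype.card_fin, Nat.add_sub_cancel] at h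
    rw [h]
    refine (abs_sum_le_sum_abs _ _).trans (sum_le_sum fun i _ => ?_)
    rw [hSev, abs_div]
    apply div_le_self (abs_nonneg _)
    rw [abs_prod]
    refine Finset.one_le_prod fun j hj => ?_
    exact hgap _ _ (Finset.ne_of_mem_erase hj).symm
  have hTh : Th w T G = C n * R - C (S.coeff T * (T.factorial : ℝ)) * X ^ (w + T) := by
    ext j
    rw [Th_coeff, coeff_sub, coeff_C_mul, coeff_C_mul, hR, Th_coeff, hG, coeff_add, coeff_C_mul,
      coeff_X_pow_mul', coeff_sub, coeff_X_pow]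
    have hQ0 : ∀ b, T ≤ b → Q.coeff b = 0 := fun b hb =>
      coeff_eq_zero_of_degree_lt (lt_of_lt_of_le hQ (by exact_mod_cast hb))
    have hP0 : ∀ b, T ≤ b → P.coeff b = 0 := fun b hb =>
      coeff_eq_zero_of_degree_lt (lt_of_lt_of_le hP (by exact_mod_cast hb))
    have hS0 : ∀ b, T + 1 ≤ b → S.coeff b = 0 := fun b hb => by
      refine coeff_eq_zero_of_degree_lt (lt_of_lt_of_le hSdeg ?_)
      rw [card_univ, Fintype.card_fin]
      exact_mod_cast hb
    by_cases hj : w ≤ j
    · obtain ⟨a, rfl⟩ := Nat.exists_eq_add_of_le hj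
      rw [if_pos hj, Nat.add_sub_cancel_left, hQ0 (w + a) (by omega)]
      rcases lt_trichotomy a T with h | h | h
      · have : ∏ i ∈ range T, (((w + a : ℕ) : ℝ) - (w + i)) = 0 := by
          apply prod_eq_zero (mem_range.mpr h)
          push_cast; ring
        rw [this, if_neg (by omega)]
        ring
      · subst h
        have : ∏ i ∈ range a, (((w + a : ℕ) : ℝ) - (w + i)) = (a.factorial : ℝ) := by
          rw [← Finset.prod_range_reflect, ← Finset.prod_range_add_one_eq_factorial]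
          push_cast
          apply prod_congr rfl
          intro i hi
          have hi' := mem_range.mp hi
          rw [Nat.cast_sub (by omega), Nat.cast_sub (by omega)]
          push_cast
          ring
        rw [this, if_pos rfl, hP0 a le_rfl]
        ring
      · rw [hP0 a h.le, hS0 a h, if_neg (by omega)]
        ring
    · rw [if_neg hj, if_neg (by omega)]
      ring
  rw [hTh] at hξ3
  simp only [eval_sub, eval_mul, eval_C, eval_pow, eval_X] at hξ3
  have : n * R.eval ξ = S.coeff T * (T.factorial : ℝ) * ξ ^ (w + T) := by linarith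
  rw [this, abs_mul, abs_mul]
  have hξ0 : 0 < ξ := lt_of_lt_of_le h0 hξ1
  rw [abs_of_nonneg (by positivity : (0 : ℝ) ≤ (T.factorial : ℝ)),
    abs_of_nonneg (by positivity : (0 : ℝ) ≤ ξ ^ (w + T))]
  gcongr


lemma coeff_mul_X_sub_C_le (p : ℝ[X]) (c M : ℝ) (hp : ∀ b, |p.coeff b| ≤ M) (a : ℕ) :
    |(p * (X - C c)).coeff a| ≤ M * (1 + |c|) := by
  have hM : 0 ≤ M := (abs_nonneg _).trans (hp 0)
  rw [mul_sub, coeff_sub, coeff_mul_C]
  rcases a with _ | a
  · simp only [mul_coeff_zero, coeff_X_zero, mul_zero, zero_sub, abs_neg, abs_mul]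
    calc |p.coeff 0| * |c| ≤ M * |c| := by gcongr; exact hp 0
      _ ≤ M * (1 + |c|) := by nlinarith [abs_nonneg c]
  · rw [coeff_mul_X]
    calc |p.coeff a - p.coeff (a + 1) * c| ≤ |p.coeff a| + |p.coeff (a + 1) * c| := abs_sub _ _
      _ ≤ M + M * |c| := by
          rw [abs_mul]
          gcongr
          · exact hp a
          · exact hp (a + 1)
      _ = M * (1 + |c|) := by ring

lemma coeff_prod_le {ι : Type*} [DecidableEq ι] (t : Finset ι) (v : ι → ℝ) (B : ℝ)
    (hv : ∀ i ∈ t, |v i| ≤ B) (a : ℕ) :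
    |(∏ i ∈ t, (X - C (v i))).coeff a| ≤ (1 + B) ^ t.card := by
  induction t using Finset.induction_on generalizing a with
  | empty =>
    simp only [prod_empty, card_empty, pow_zero, coeff_one]
    split_ifs <;> simp
  | insert i t hi ih =>
    rw [prod_insert hi, mul_comm, card_insert_of_notMem hi, pow_succ]
    have hB : 0 ≤ B := (abs_nonneg _).trans (hv i (mem_insert_self _ _))
    refine (coeff_mul_X_sub_C_le _ (v i) ((1 + B) ^ t.card)
      (fun b => ih (fun j hj => hv j (mem_insert_of_mem hj)) b) a).trans ?_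
    gcongr
    exact hv i (mem_insert_self _ _)

lemma coeff_bound {ι : Type*} [DecidableEq ι] (s : Finset ι) (v : ι → ℝ) (B ε : ℝ)
    (hgap : ∀ i ∈ s, ∀ j ∈ s, i ≠ j → 1 ≤ |v i - v j|) (hv : ∀ i ∈ s, |v i| ≤ B)
    (R : ℝ[X]) (hR : R.degree < s.card) (hε : ∀ i ∈ s, |R.eval (v i)| ≤ ε) (hB : 0 ≤ B) (a : ℕ) :
    |R.coeff a| ≤ s.card * (ε * (1 + B) ^ s.card) := by
  have hinj : Set.InjOn v s := by
    intro i hi j hj hij
    by_contra hne
    have := hgap i hi j hj hne
    rw [hij, sub_self, abs_zero] at this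
    linarith
  have h1 := Lagrange.eq_interpolate hinj hR
  rw [Lagrange.interpolate_eq_sum] at h1
  have h2 : R.coeff a = ∑ i ∈ s, (R.eval (v i) / ∏ j ∈ s.erase i, (v i - v j)) *
      (∏ j ∈ s.erase i, (X - C (v j))).coeff a := by
    conv_lhs => rw [h1]
    rw [finsetSum_coeff]
    exact sum_congr rfl fun i _ => by rw [coeff_C_mul]
  rw [h2]
  refine (abs_sum_le_sum_abs _ _).trans ?_
  rw [← nsmul_eq_mul]
  refine sum_le_card_nsmul _ _ _ fun i hi => ?_
  have hε0 : 0 ≤ ε := (abs_nonneg _).trans (hε i hi)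
  rw [abs_mul, abs_div, abs_prod]
  have h3 : 1 ≤ ∏ j ∈ s.erase i, |v i - v j| :=
    Finset.one_le_prod fun j hj => hgap i hi j (mem_of_mem_erase hj) (ne_of_mem_erase hj).symm
  have h4 : |(∏ j ∈ s.erase i, (X - C (v j))).coeff a| ≤ (1 + B) ^ s.card := by
    refine (coeff_prod_le _ v B (fun j hj => hv j (mem_of_mem_erase hj)) a).trans ?_
    apply pow_le_pow_right₀ (by linarith)
    exact card_le_card (erase_subset _ _)
  have h5 : |R.eval (v i)| / ∏ j ∈ s.erase i, |v i - v j| ≤ ε :=
    (div_le_self (abs_nonneg _) h3).trans (hε i hi)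
  exact mul_le_mul h5 h4 (abs_nonneg _) hε0

/-- The zero estimate. -/
theorem zero_estimate (T w : ℕ) (hT : 1 ≤ T) (hTw : T ≤ w) (n B y : ℝ) (hn : 0 < n)
    (hy : 0 ≤ y)
    (x k : Fin T → Fin (T + 1) → ℝ) (hx : ∀ j, StrictMono (x j))
    (hgap : ∀ j i i', i ≠ i' → 1 ≤ |x j i - x j i'|)
    (hsep : ∀ j j', j < j' → x j (Fin.last T) + 1 ≤ x j' 0)
    (hpos : ∀ j i, 1 ≤ x j i) (hB : ∀ j i, x j i ≤ B)
    (hratio : ∀ j i, (x j (Fin.last T)) ^ w ≤ 3 * (x j i) ^ w)
    (hk0 : ∀ j i, 0 ≤ k j i) (hk : ∀ j i, k j i ≤ y)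
    (P Q : ℝ[X]) (hP : P.degree < T) (hQ : Q.degree < T)
    (hPQ : ∀ j i, P.eval (x j i) + Q.eval (x j i) * ((n + k j i) / (x j i) ^ w) = 0)
    (hbig : 3 * T ^ 2 * (T + 1) * T.factorial * y * B ^ (2 * T) * (1 + B) ^ T < n) :
    P = 0 ∧ Q = 0 := by
  classical
  have hQ0 : Q = 0 := by
    by_contra hQne
    obtain ⟨a, ha, hmax⟩ := Finset.exists_max_image (range T) (fun a => |Q.coeff a|)
      ⟨0, mem_range.mpr hT⟩
    set H := |Q.coeff a| with hH
    have haT : a < T := mem_range.mp ha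
    have hcoeff : ∀ b, |Q.coeff b| ≤ H := by
      intro b
      by_cases hb : b < T
      · exact hmax b (mem_range.mpr hb)
      · rw [coeff_eq_zero_of_degree_lt (lt_of_lt_of_le hQ (by exact_mod_cast not_lt.mp hb))]
        simp [hH]
    have hHpos : 0 < H := by
      rcases (abs_nonneg (Q.coeff a)).eq_or_lt with h | h
      · exfalso; apply hQne
        ext b
        have := hcoeff b
        rw [hH, ← h] at this
        simpa using this
      · exact h
    have hB1 : 1 ≤ B := (hpos ⟨0, hT⟩ 0).trans (hB _ _)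
    have hQev : ∀ t, 1 ≤ t → t ≤ B → |Q.eval t| ≤ T * (H * B ^ T) := by
      intro t ht htB
      rw [eval_eq_sum_range' (n := T) (by
        rcases eq_or_ne Q 0 with h | h
        · exact absurd h hQne
        · exact (natDegree_lt_iff_degree_lt h).mpr hQ)]
      refine (abs_sum_le_sum_abs _ _).trans ?_
      have : ((range T).card : ℝ) = T := by simp
      rw [← this, ← nsmul_eq_mul]
      refine sum_le_card_nsmul _ _ _ fun b hb => ?_
      rw [abs_mul, abs_of_nonneg (by positivity : (0:ℝ) ≤ t ^ b)]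
      have hb' := mem_range.mp hb
      have : t ^ b ≤ B ^ T :=
        (pow_le_pow_left₀ (by linarith) htB b).trans (pow_le_pow_right₀ hB1 (by omega))
      exact mul_le_mul (hcoeff b) this (by positivity) hHpos.le
    set ε : ℝ := 3 * T * (T + 1) * H * B ^ (2 * T) * y * T.factorial / n with hεdef
    have hwin : ∀ j : Fin T, ∃ ξ, x j 0 ≤ ξ ∧ ξ ≤ x j (Fin.last T) ∧
        |(Th w T Q).eval ξ| ≤ ε := by
      intro j
      obtain ⟨ξ, h1, h2, h3⟩ := window T w hTw P Q hP hQ n (x j) (hx j)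
        (lt_of_lt_of_le one_pos (hpos j 0)) (hgap j)
      refine ⟨ξ, h1, h2, ?_⟩
      have hξ1 : 1 ≤ ξ := (hpos j 0).trans h1
      have hξB : ξ ≤ B := h2.trans (hB _ _)
      have hδ : ∀ i, |P.eval (x j i) + n * Q.eval (x j i) / (x j i) ^ w| * ξ ^ w
          ≤ T * (H * B ^ T) * y * 3 := by
        intro i
        have hxi := hpos j i
        have hxw : (0:ℝ) < (x j i) ^ w := by positivity
        have e1 : P.eval (x j i) + n * Q.eval (x j i) / (x j i) ^ w
            = - (Q.eval (x j i) * (k j i / (x j i) ^ w)) := by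
          have := hPQ j i
          have h4 : Q.eval (x j i) * ((n + k j i) / (x j i) ^ w)
              = n * Q.eval (x j i) / (x j i) ^ w + Q.eval (x j i) * (k j i / (x j i) ^ w) := by
            field_simp
          rw [h4] at this
          linarith
        rw [e1, abs_neg, abs_mul, abs_div, abs_of_nonneg (hk0 j i), abs_of_pos hxw]
        have h5 : ξ ^ w / (x j i) ^ w ≤ 3 := by
          rw [div_le_iff₀ hxw]
          exact (pow_le_pow_left₀ (by linarith) h2 w).trans (hratio j i)
        calc |Q.eval (x j i)| * (k j i / (x j i) ^ w) * ξ ^ w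
            = |Q.eval (x j i)| * k j i * (ξ ^ w / (x j i) ^ w) := by ring
          _ ≤ (T * (H * B ^ T)) * y * 3 := by
              have h6 := hQev (x j i) hxi (hB j i)
              have h7 : 0 ≤ ξ ^ w / (x j i) ^ w := by positivity
              have h8 := hk0 j i
              have h9 := hk j i
              have h10 : |Q.eval (x j i)| * k j i ≤ (T * (H * B ^ T)) * y :=
                mul_le_mul h6 h9 h8 (by positivity)
              exact mul_le_mul h10 h5 h7 (by positivity)
      have hsum : (∑ i, |P.eval (x j i) + n * Q.eval (x j i) / (x j i) ^ w|) * ξ ^ w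
          ≤ (T + 1) * (T * (H * B ^ T) * y * 3) := by
        rw [sum_mul]
        have : ((univ : Finset (Fin (T + 1))).card : ℝ) = T + 1 := by simp
        rw [← this, ← nsmul_eq_mul]
        exact sum_le_card_nsmul _ _ _ fun i _ => hδ i
      rw [hεdef, le_div_iff₀ hn]
      have h4 : |(Th w T Q).eval ξ| * n = |n * (Th w T Q).eval ξ| := by
        rw [abs_mul, abs_of_pos hn]; ring
      rw [h4]
      refine h3.trans ?_
      have h5 : ξ ^ T ≤ B ^ T := pow_le_pow_left₀ (by linarith) hξB T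
      calc (∑ i, |P.eval (x j i) + n * Q.eval (x j i) / (x j i) ^ w|) *
            (T.factorial : ℝ) * ξ ^ (w + T)
          = ((∑ i, |P.eval (x j i) + n * Q.eval (x j i) / (x j i) ^ w|) * ξ ^ w) *
            ((T.factorial : ℝ) * ξ ^ T) := by rw [pow_add]; ring
        _ ≤ ((T + 1) * (T * (H * B ^ T) * y * 3)) * ((T.factorial : ℝ) * B ^ T) := by
            gcongr
        _ = 3 * T * (T + 1) * H * B ^ (2 * T) * y * T.factorial := by ring
    choose ξ hξ1 hξ2 hξ3 using hwin
    have hcb := coeff_bound (univ : Finset (Fin T)) ξ B ε (by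
        intro i _ j _ hij
        rcases lt_or_gt_of_ne hij with h | h
        · have := hsep i j h
          rw [abs_sub_comm, abs_of_nonneg (by linarith [hξ2 i, hξ1 j])]
          linarith [hξ2 i, hξ1 j]
        · have := hsep j i h
          rw [abs_of_nonneg (by linarith [hξ2 j, hξ1 i])]
          linarith [hξ2 j, hξ1 i])
      (by
        intro i _
        have h1 := (hpos i 0).trans (hξ1 i)
        rw [abs_of_nonneg (by linarith)]
        exact (hξ2 i).trans (hB _ _))
      (Th w T Q) (by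
        rw [card_univ, Fintype.card_fin]
        rw [degree_lt_iff_coeff_zero]
        intro m hm
        rw [Th_coeff, coeff_eq_zero_of_degree_lt (lt_of_lt_of_le hQ (by exact_mod_cast hm)),
          mul_zero])
      (fun i _ => hξ3 i) (by linarith) a
    rw [card_univ, Fintype.card_fin, Th_coeff, abs_mul, abs_prod] at hcb
    have hone : 1 ≤ ∏ i ∈ range T, |((a : ℝ) - (w + i))| := by
      refine Finset.one_le_prod fun i _ => ?_
      have : (a : ℝ) + 1 ≤ w := by exact_mod_cast (by omega : a + 1 ≤ w)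
      rw [abs_of_nonpos (by have : (0:ℝ) ≤ (i:ℝ) := by positivity
                            linarith)]
      have : (0:ℝ) ≤ (i:ℝ) := by positivity
      linarith
    have h1 : H ≤ T * (ε * (1 + B) ^ T) := by
      refine le_trans ?_ hcb
      calc H = 1 * H := (one_mul _).symm
        _ ≤ (∏ i ∈ range T, |((a : ℝ) - (w + i))|) * H := by gcongr
    have h2 : T * (ε * (1 + B) ^ T) =
        H * ((3 * T ^ 2 * (T + 1) * T.factorial * y * B ^ (2 * T) * (1 + B) ^ T) / n) := by
      rw [hεdef]; ring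
    rw [h2] at h1
    have h3 : (3 * T ^ 2 * (T + 1) * T.factorial * y * B ^ (2 * T) * (1 + B) ^ T) / n < 1 := by
      rw [div_lt_one hn]; exact hbig
    have h4 : H * ((3 * T ^ 2 * (T + 1) * T.factorial * y * B ^ (2 * T) * (1 + B) ^ T) / n) < H * 1 :=
      mul_lt_mul_of_pos_left h3 hHpos
    linarith
  refine ⟨?_, hQ0⟩
  subst hQ0
  have hinj : Set.InjOn (x ⟨0, hT⟩) ((univ : Finset (Fin (T + 1))) : Set (Fin (T + 1))) :=
    (hx _).injective.injOn
  apply Polynomial.eq_zero_of_degree_lt_of_eval_index_eq_zero _ hinj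
  · rw [card_univ, Fintype.card_fin]
    exact hP.trans (by exact_mod_cast Nat.lt_succ_self T)
  · intro i _
    simpa using hPQ ⟨0, hT⟩ i

end Pool.Agent.Y801
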