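import Mathlib
import Pool.Agent.Y801.Zero
import Pool.Agent.Y801.Det

set_option autoImplicit false

namespace Pool.Agent.Y801

open Finset Polynomial

/-- There is no cluster of `T (T + 1)` integers `x` in a short interval with the same exponent `w`
such that some multiple `x ^ w * e` (with `e ≤ 2 ^ T`) lies in `[n, n + y]`. -/
theorem no_cluster (T w n x0 l y : ℕ) (hT : 1 ≤ T) (hTw : T ≤ w) (hx0 : 1 ≤ x0)
    (hl : 2 * T ≤ l)
    (h2 : y * (16 * l ^ 2) ^ T ≤ n)
    (h3 : (16 * l ^ 2 * l + x0) ^ w ≤ 3 * x0 ^ w)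
    (h4 : 3 * T ^ 2 * (T + 1) * T.factorial * y * (x0 + l) ^ (2 * T) * (1 + (x0 + l)) ^ T < n)
    (Z : Finset ℕ) (hcard : T * (T + 1) ≤ Z.card) (hZ : ∀ x ∈ Z, x0 ≤ x ∧ x ≤ x0 + l)
    (e k : ℕ → ℕ) (heq : ∀ x ∈ Z, x ^ w * e x = n + k x) (he : ∀ x ∈ Z, e x ≤ 2 ^ T)
    (hk : ∀ x ∈ Z, k x ≤ y) : False := by
  classical
  obtain ⟨Z', hZ'Z, hZ'c⟩ := Finset.exists_subset_card_eq hcard
  set f := Z'.orderEmbOfFin hZ'c with hf
  have hfZ : ∀ i, f i ∈ Z := fun i => hZ'Z (Finset.orderEmbOfFin_mem _ _ _)
  set g : Fin T → Fin (T + 1) → ℕ := fun j i => f (finProdFinEquiv (j, i)) with hg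
  have hgZ : ∀ j i, g j i ∈ Z := fun j i => hfZ _
  have hgmono : ∀ j, StrictMono (g j) := by
    intro j i i' hii
    apply f.strictMono
    rw [Fin.lt_def, finProdFinEquiv_apply_val, finProdFinEquiv_apply_val]
    have : (i : ℕ) < i' := hii
    simp only
    omega
  have hgsep : ∀ j j', j < j' → g j (Fin.last T) + 1 ≤ g j' 0 := by
    intro j j' hjj
    apply Nat.succ_le_of_lt
    apply f.strictMono
    rw [Fin.lt_def, finProdFinEquiv_apply_val, finProdFinEquiv_apply_val]
    have h5 : (j : ℕ) + 1 ≤ j' := hjj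
    have h6 : (T + 1) * ((j : ℕ) + 1) ≤ (T + 1) * (j' : ℕ) := Nat.mul_le_mul_left _ h5
    simp only [Fin.val_last, Fin.val_zero, zero_add]
    rw [mul_add, mul_one] at h6
    omega
  set x : Fin T → Fin (T + 1) → ℝ := fun j i => (g j i : ℝ) with hx
  have hnpos : (0 : ℝ) < n := by
    have : 0 < n := by omega
    exact_mod_cast this
  have hratio : ((x0 + l : ℕ) : ℝ) ^ w ≤ 3 * (x0 : ℝ) ^ w := by
    have : (x0 + l) ^ w ≤ 3 * x0 ^ w := by
      refine le_trans ?_ h3
      apply Nat.pow_le_pow_left
      have : l ≤ 16 * l ^ 2 * l := by nlinarith [Nat.zero_le l, sq_nonneg l]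
      omega
    exact_mod_cast this
  set v : Fin T × Fin (T + 1) → (Fin T ⊕ Fin T) → ℝ := fun p j =>
    Sum.elim (fun a : Fin T => ((g p.1 p.2 - x0 : ℕ) : ℝ) ^ (a : ℕ))
      (fun b : Fin T => ((g p.1 p.2 - x0 : ℕ) : ℝ) ^ (b : ℕ) * (e (g p.1 p.2) : ℝ)) j with hv
  have hsub : ∀ j i, ((g j i - x0 : ℕ) : ℝ) = (g j i : ℝ) - x0 := fun j i => by
    rw [Nat.cast_sub (hZ _ (hgZ j i)).1]
  obtain ⟨r, hr⟩ := exists_det_ne_zero v (by
    intro c hc
    set P0 : ℝ[X] := ∑ a : Fin T, C (c (Sum.inl a)) * X ^ (a : ℕ) with hP0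
    set Q0 : ℝ[X] := ∑ a : Fin T, C (c (Sum.inr a)) * X ^ (a : ℕ) with hQ0
    have hPd : (taylor (-(x0 : ℝ)) P0).degree < T := by
      rw [degree_taylor]; exact degree_sum_fin_lt _
    have hQd : (taylor (-(x0 : ℝ)) Q0).degree < T := by
      rw [degree_taylor]; exact degree_sum_fin_lt _
    obtain ⟨hP, hQ⟩ := zero_estimate T w hT hTw n ((x0 + l : ℕ) : ℝ) y hnpos (by positivity)
      x (fun j i => (k (g j i) : ℝ)) (fun j i i' hii => by
        show (g j i : ℝ) < (g j i' : ℝ)
        exact_mod_cast hgmono j hii)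
      (by
        intro j i i' hii
        rcases lt_or_gt_of_ne hii with h | h
        · have : g j i + 1 ≤ g j i' := hgmono j h
          have : (g j i : ℝ) + 1 ≤ g j i' := by exact_mod_cast this
          rw [abs_sub_comm, abs_of_nonneg (by simp only [hx]; linarith)]
          simp only [hx]; linarith
        · have : g j i' + 1 ≤ g j i := hgmono j h
          have : (g j i' : ℝ) + 1 ≤ g j i := by exact_mod_cast this
          rw [abs_of_nonneg (by simp only [hx]; linarith)]
          simp only [hx]; linarith)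
      (by
        intro j j' h
        simp only [hx]
        exact_mod_cast hgsep j j' h)
      (by
        intro j i
        simp only [hx]
        exact_mod_cast le_trans hx0 (hZ _ (hgZ j i)).1)
      (by
        intro j i
        simp only [hx]
        exact_mod_cast (hZ _ (hgZ j i)).2)
      (by
        intro j i
        simp only [hx]
        refine le_trans (pow_le_pow_left₀ (by positivity) (by exact_mod_cast (hZ _ (hgZ j _)).2) w)
          (hratio.trans ?_)
        have : (x0 : ℝ) ^ w ≤ (g j i : ℝ) ^ w :=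
          pow_le_pow_left₀ (by positivity) (by exact_mod_cast (hZ _ (hgZ j i)).1) w
        linarith)
      (fun j i => by positivity)
      (fun j i => by exact_mod_cast hk _ (hgZ j i))
      (taylor (-(x0 : ℝ)) P0) (taylor (-(x0 : ℝ)) Q0) hPd hQd
      (by
        intro j i
        rw [taylor_eval, taylor_eval]
        have hgpos : (0 : ℝ) < (g j i : ℝ) := by
          exact_mod_cast lt_of_lt_of_le hx0 (hZ _ (hgZ j i)).1
        have e1 : ((n : ℝ) + (k (g j i) : ℝ)) / (x j i) ^ w = e (g j i) := by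
          have := heq _ (hgZ j i)
          have h7 : (g j i : ℝ) ^ w * e (g j i) = n + k (g j i) := by exact_mod_cast this
          rw [← h7]
          simp only [hx]
          field_simp
        rw [e1]
        have h8 := hc (j, i)
        simp only [hv, Fintype.sum_sum_type, Sum.elim_inl, Sum.elim_inr] at h8
        simp only [hx, hP0, hQ0, eval_finsetSum, eval_mul, eval_C, eval_pow, eval_X]
        rw [hsub] at h8
        rw [← h8, sub_eq_add_neg, Finset.sum_mul]
        congr 1
        apply sum_congr rfl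
        intro b _
        ring)
      (by exact_mod_cast h4)
    have hP' : P0 = 0 := taylor_injective (-(x0 : ℝ)) (by rw [hP, map_zero])
    have hQ' : Q0 = 0 := taylor_injective (-(x0 : ℝ)) (by rw [hQ, map_zero])
    funext j
    rcases j with a | a
    · have := congrArg (fun p => p.coeff (a : ℕ)) hP'
      simp only [hP0, finsetSum_coeff, coeff_C_mul, coeff_X_pow, coeff_zero, mul_ite, mul_one,
        mul_zero] at this
      rw [Finset.sum_eq_single a] at this
      · simpa using this
      · intro b _ hb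
        rw [if_neg (fun h => hb (Fin.ext h.symm))]
      · intro h; exact absurd (mem_univ _) h
    · have := congrArg (fun p => p.coeff (a : ℕ)) hQ'
      simp only [hQ0, finsetSum_coeff, coeff_C_mul, coeff_X_pow, coeff_zero, mul_ite, mul_one,
        mul_zero] at this
      rw [Finset.sum_eq_single a] at this
      · simpa using this
      · intro b _ hb
        rw [if_neg (fun h => hb (Fin.ext h.symm))]
      · intro h; exact absurd (mem_univ _) h)
  -- the determinant is an integer
  set hh : Fin T ⊕ Fin T → ℕ := fun i => g (r i).1 (r i).2 - x0 with hhh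
  set ee : Fin T ⊕ Fin T → ℕ := fun i => e (g (r i).1 (r i).2) with hee
  set kk : Fin T ⊕ Fin T → ℕ := fun i => k (g (r i).1 (r i).2) with hkk
  set D : Matrix (Fin T ⊕ Fin T) (Fin T ⊕ Fin T) ℤ := Matrix.of fun i j =>
    Sum.elim (fun a : Fin T => (hh i : ℤ) ^ (a : ℕ)) (fun b : Fin T => (hh i : ℤ) ^ (b : ℕ) * ee i) j
    with hD
  have hDR : (Matrix.of fun i j => v (r i) j) = D.map (Int.cast : ℤ → ℝ) := by
    ext i j
    rcases j with a | b
    · simp [hv, hD, hhh]
    · simp [hv, hD, hhh, hee]
  have hdet : (Matrix.of fun i j => v (r i) j).det = ((D.det : ℤ) : ℝ) := by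
    rw [hDR]
    exact ((Int.castRingHom ℝ).map_det D).symm
  have hlt := det_lt_one T w hT hTw (n : ℝ) (x0 : ℝ) (l : ℝ) hnpos (by exact_mod_cast hx0)
    (by exact_mod_cast hl) (fun i => (hh i : ℝ)) (fun i => (ee i : ℝ)) (fun i => (kk i : ℝ))
    (fun i => by positivity)
    (fun i => by
      have := (hZ _ (hgZ (r i).1 (r i).2)).2
      have h5 : hh i ≤ l := by simp only [hhh]; omega
      exact_mod_cast h5)
    (fun i => by positivity)
    (fun i => by exact_mod_cast he _ (hgZ _ _))
    (fun i => by positivity)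
    (fun i => by
      have h5 := heq _ (hgZ (r i).1 (r i).2)
      have h6 : hh i + x0 = g (r i).1 (r i).2 := by
        have := (hZ _ (hgZ (r i).1 (r i).2)).1
        simp only [hhh]; omega
      have : (hh i + x0) ^ w * ee i = n + kk i := by rw [h6]; exact h5
      exact_mod_cast this)
    (fun i => by
      have h5 : kk i ≤ y := hk _ (hgZ _ _)
      have : kk i * (16 * l ^ 2) ^ T ≤ n := (Nat.mul_le_mul_right _ h5).trans h2
      exact_mod_cast this)
    (by exact_mod_cast h3)
  have heqM : (Matrix.of fun (i j : Fin T ⊕ Fin T) =>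
      Sum.elim (fun a : Fin T => (hh i : ℝ) ^ (a : ℕ)) (fun b : Fin T => (hh i : ℝ) ^ (b : ℕ) * ee i) j)
      = (Matrix.of fun i j => v (r i) j) := by
    ext i j
    rcases j with a | b <;> rfl
  rw [heqM, hdet] at hlt
  have h0 : D.det = 0 := by
    have : |D.det| < 1 := by exact_mod_cast hlt
    exact Int.abs_lt_one_iff.mp this
  apply hr
  rw [hdet, h0, Int.cast_zero]

end Pool.Agent.Y801
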