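import Mathlib

set_option autoImplicit false

namespace Pool.Agent.Y801

open Finset

lemma prod_pow_dvd (s : Finset ℕ) (hs : ∀ q ∈ s, q.Prime) (m : ℕ → ℕ) (N : ℕ)
    (h : ∀ q ∈ s, q ^ m q ∣ N) : ∏ q ∈ s, q ^ m q ∣ N := by
  induction s using Finset.induction_on with
  | empty => simp
  | insert a s ha ih =>
    rw [prod_insert ha]
    apply Nat.Coprime.mul_dvd_of_dvd_of_dvd _ (h a (mem_insert_self _ _))
      (ih (fun q hq => hs q (mem_insert_of_mem hq)) fun q hq => h q (mem_insert_of_mem hq))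
    apply Nat.Coprime.prod_right
    intro q hq
    apply Nat.Coprime.pow
    rw [Nat.coprime_primes (hs a (mem_insert_self _ _)) (hs q (mem_insert_of_mem hq))]
    rintro rfl
    exact ha hq

lemma prod_image_dvd_factorial (s : Finset ℕ) (y : ℕ) (f : ℕ → ℕ) (hinj : Set.InjOn f s)
    (h : ∀ k ∈ s, 1 ≤ f k ∧ f k ≤ y) : ∏ k ∈ s, f k ∣ y.factorial := by
  rw [← Finset.prod_image (g := f) (f := fun i => i) hinj, ← Finset.prod_Ico_id_eq_factorial]
  apply Finset.prod_dvd_prod_of_subset
  intro i hi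
  obtain ⟨k, hk, rfl⟩ := mem_image.mp hi
  exact mem_Ico.mpr ⟨(h k hk).1, Nat.lt_succ_of_le (h k hk).2⟩

/-- Erdős' trick: outside the index `κ` where the valuation is largest, the powers of `q` dividing
the `n + k` are controlled by a factorial. -/
lemma erdos_trick (S : Finset ℕ) (y n q κ : ℕ) (hq : q.Prime) (hn : 0 < n)
    (hS : ∀ k ∈ S, k ≤ y) (hκ : κ ≤ y)
    (hmax : ∀ k ∈ S, (n + k).factorization q ≤ (n + κ).factorization q) :
    ∏ k ∈ S with κ ≠ k, q ^ (n + k).factorization q ∣ y.factorial ^ 2 := by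
  have hdvd : ∀ k ∈ S, q ^ (n + k).factorization q ∣ n + k ∧
      q ^ (n + k).factorization q ∣ n + κ := by
    intro k hk
    refine ⟨Nat.ordProj_dvd _ _, (pow_dvd_pow q (hmax k hk)).trans (Nat.ordProj_dvd _ _)⟩
  have hsplit : ∏ k ∈ S with κ ≠ k, q ^ (n + k).factorization q
      = (∏ k ∈ S with k < κ, q ^ (n + k).factorization q) *
        ∏ k ∈ S with κ < k, q ^ (n + k).factorization q := by
    rw [← Finset.prod_union]
    · apply Finset.prod_congr _ fun _ _ => rfl
      ext k
      simp only [mem_filter, mem_union]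
      constructor
      · rintro ⟨h1, h2⟩
        rcases lt_or_gt_of_ne h2 with h | h
        · exact Or.inr ⟨h1, h⟩
        · exact Or.inl ⟨h1, h⟩
      · rintro (⟨h1, h2⟩ | ⟨h1, h2⟩)
        · exact ⟨h1, by omega⟩
        · exact ⟨h1, by omega⟩
    · rw [Finset.disjoint_left]
      intro k h1 h2
      have := (mem_filter.mp h1).2
      have := (mem_filter.mp h2).2
      omega
  rw [hsplit, pow_two]
  apply mul_dvd_mul
  · refine (Finset.prod_dvd_prod_of_dvd _ (fun k => κ - k) ?_).trans
      (prod_image_dvd_factorial _ y _ ?_ ?_)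
    · intro k hk
      obtain ⟨h1, h2⟩ := hdvd k (mem_filter.mp hk).1
      have := Nat.dvd_sub h2 h1
      have e : n + κ - (n + k) = κ - k := by omega
      rwa [e] at this
    · intro a ha b hb hab
      have h1 := (mem_filter.mp ha).2
      have h2 := (mem_filter.mp hb).2
      have hab' : κ - a = κ - b := hab
      omega
    · intro k hk
      have h1 := (mem_filter.mp hk).2
      omega
  · refine (Finset.prod_dvd_prod_of_dvd _ (fun k => k - κ) ?_).trans
      (prod_image_dvd_factorial _ y _ ?_ ?_)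
    · intro k hk
      obtain ⟨h1, h2⟩ := hdvd k (mem_filter.mp hk).1
      have := Nat.dvd_sub h1 h2
      have e : n + k - (n + κ) = k - κ := by omega
      rwa [e] at this
    · intro a ha b hb hab
      have h1 := (mem_filter.mp ha).2
      have h2 := (mem_filter.mp hb).2
      have hab' : a - κ = b - κ := hab
      omega
    · intro k hk
      have h1 := (mem_filter.mp hk).2
      have h2 := hS k (mem_filter.mp hk).1
      omega

/-- The counting step. -/
theorem many_good (l n y T : ℕ) (hl : 1 ≤ l) (hn : 2 ^ T < n)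
    (H : ∀ k, l ≤ k → ∀ p q : ℕ, p.Prime → q.Prime → p ∣ n + k → q ∣ n + k → k < p → k < q → p = q) :
    ∃ (G : Finset ℕ) (b : ℕ), G ⊆ Nat.primesLE y ∧ (2 ^ T) ^ b ≤ y.factorial ^ 2 ∧
      (Nat.primesLE y).card ≤ G.card +
        2 * ((Nat.primesLE y).filter (fun p => ∃ j < l, p ∣ n + j)).card + 2 * b ∧
      ∀ x ∈ G, ∃ w e k : ℕ, x ^ w * e = n + k ∧ e ≤ 2 ^ T ∧ k ≤ y := by
  classical
  have hn0 : 0 < n := lt_of_le_of_lt (Nat.zero_le _) hn
  set Pr := Nat.primesLE y with hPr
  set R := Pr.filter (fun p => ∃ j < l, p ∣ n + j) with hR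
  set P := Pr.filter (fun p => ¬ ∃ j < l, p ∣ n + j) with hP
  have hPR : P.card + R.card = Pr.card := by
    rw [hP, hR, add_comm]
    exact Finset.card_filter_add_card_filter_not _
  set kp : ℕ → ℕ := fun p => p - n % p with hkp
  have hkpf : ∀ p ∈ P, l ≤ kp p ∧ kp p < p ∧ p ∣ n + kp p := by
    intro p hp
    obtain ⟨hp1, hp2⟩ := mem_filter.mp hp
    have hpp := Nat.prime_of_mem_primesLE hp1
    have hmod : n % p ≠ 0 := by
      intro h0
      exact hp2 ⟨0, hl, by simpa using Nat.dvd_of_mod_eq_zero h0⟩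
    have hlt := Nat.mod_lt n hpp.pos
    have hd : p ∣ n + kp p := by
      have h1 : n + kp p = p * (n / p) + p := by
        have := Nat.div_add_mod n p
        simp only [hkp]; omega
      rw [h1]
      exact (Dvd.intro _ rfl).add dvd_rfl
    refine ⟨?_, by simp only [hkp]; omega, hd⟩
    by_contra hlt2
    exact hp2 ⟨kp p, not_le.mp hlt2, hd⟩
  set S := P.image kp with hS
  have hScard : S.card = P.card := by
    apply Finset.card_image_of_injOn
    intro p hp q hq hpq
    obtain ⟨h1, h2, h3⟩ := hkpf p hp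
    obtain ⟨g1, g2, g3⟩ := hkpf q hq
    exact H (kp p) h1 p q (Nat.prime_of_mem_primesLE (mem_filter.mp hp).1)
      (Nat.prime_of_mem_primesLE (mem_filter.mp hq).1) h3 (hpq ▸ g3) h2 (hpq ▸ g2)
  have hSy : ∀ k ∈ S, k ≤ y := by
    intro k hk
    obtain ⟨p, hp, rfl⟩ := mem_image.mp hk
    exact (hkpf p hp).2.1.le.trans (Nat.le_of_mem_primesLE (mem_filter.mp hp).1)
  have hsmooth : ∀ k ∈ S, ∀ q, q.Prime → q ∣ n + k → q ∈ Pr := by
    intro k hk q hq hqd
    obtain ⟨p, hp, rfl⟩ := mem_image.mp hk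
    obtain ⟨h1, h2, h3⟩ := hkpf p hp
    have hpPr := (mem_filter.mp hp).1
    by_cases hlt : kp p < q
    · have := H (kp p) h1 p q (Nat.prime_of_mem_primesLE hpPr) hq h3 hqd h2 hlt
      rwa [← this]
    · exact Nat.mem_primesLE.mpr ⟨((not_lt.mp hlt).trans h2.le).trans
        (Nat.le_of_mem_primesLE hpPr), hq⟩
  rcases S.eq_empty_or_nonempty with hSe | hSne
  · refine ⟨∅, 0, by simp, ?_, ?_, by simp⟩
    · simp only [pow_zero]
      exact Nat.one_le_pow _ _ (Nat.factorial_pos y)
    · rw [hSe, card_empty] at hScard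
      simp only [card_empty]
      omega
  have hκ : ∀ q : ℕ, ∃ κ ∈ S, ∀ k ∈ S, (n + k).factorization q ≤ (n + κ).factorization q :=
    fun q => Finset.exists_max_image S (fun k => (n + k).factorization q) hSne
  choose κ hκS hκmax using hκ
  set e : ℕ → ℕ := fun k => ∏ q ∈ Pr with κ q ≠ k, q ^ (n + k).factorization q with he
  have hprod : ∀ k ∈ S, (∏ q ∈ Pr with κ q = k, q ^ (n + k).factorization q) * e k = n + k := by
    intro k hk
    rw [he]
    simp only
    rw [Finset.prod_filter_mul_prod_filter_not]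
    conv_rhs => rw [← Nat.prod_factorization_pow_eq_self (by omega : n + k ≠ 0)]
    rw [Finsupp.prod_of_support_subset]
    · intro q hq
      rw [Nat.support_factorization] at hq
      exact hsmooth k hk q (Nat.prime_of_mem_primeFactors hq) (Nat.dvd_of_mem_primeFactors hq)
    · intro i _; simp
  have hepos : ∀ k ∈ S, 1 ≤ e k := by
    intro k hk
    have := hprod k hk
    rcases Nat.eq_zero_or_pos (e k) with h | h
    · rw [h] at this; omega
    · exact h
  have hprodle : ∏ k ∈ S, e k ≤ y.factorial ^ 2 := by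
    apply Nat.le_of_dvd (by positivity)
    have h1 : ∏ k ∈ S, e k = ∏ q ∈ Pr, ∏ k ∈ S with κ q ≠ k, q ^ (n + k).factorization q := by
      simp only [he, Finset.prod_filter]
      rw [Finset.prod_comm]
    rw [h1]
    have h2 : ∀ q ∈ Pr, ∏ k ∈ S with κ q ≠ k, q ^ (n + k).factorization q
        = q ^ (∑ k ∈ S with κ q ≠ k, (n + k).factorization q) := by
      intro q _
      rw [Finset.prod_pow_eq_pow_sum]
    rw [Finset.prod_congr rfl h2]
    apply prod_pow_dvd Pr (fun q hq => Nat.prime_of_mem_primesLE hq)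
    intro q hq
    rw [← h2 q hq]
    exact erdos_trick S y n q (κ q) (Nat.prime_of_mem_primesLE hq) hn0 hSy (hSy _ (hκS q))
      (hκmax q)
  set B := S.filter (fun k => 2 ^ T < e k) with hB
  set G0 := S.filter (fun k => ¬ 2 ^ T < e k) with hG0
  have hBG : B.card + G0.card = S.card := Finset.card_filter_add_card_filter_not _
  have hBle : (2 ^ T) ^ B.card ≤ y.factorial ^ 2 := by
    refine le_trans ?_ hprodle
    calc (2 ^ T) ^ B.card = ∏ _k ∈ B, 2 ^ T := by rw [prod_const]
      _ ≤ ∏ k ∈ B, e k := Finset.prod_le_prod' fun k hk => (mem_filter.mp hk).2.le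
      _ ≤ ∏ k ∈ S, e k := by
          apply Finset.prod_le_prod_of_subset_of_one_le' (filter_subset _ _)
          intro k hk _
          exact hepos k hk
  have hfib : ∀ k ∈ G0, 1 ≤ (Pr.filter (fun q => κ q = k)).card := by
    intro k hk
    obtain ⟨hkS, hke⟩ := mem_filter.mp hk
    rw [Nat.one_le_iff_ne_zero, Ne, Finset.card_eq_zero]
    intro h0
    have := hprod k hkS
    rw [h0, prod_empty, one_mul] at this
    omega
  set G := Pr.filter (fun q => κ q ∈ G0 ∧ (Pr.filter (fun q' => κ q' = κ q)).card = 1) with hG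
  have hcount : 2 * G0.card ≤ Pr.card + G.card := by
    have h1 : ∑ k ∈ G0, (Pr.filter (fun q => κ q = k)).card ≤ Pr.card := by
      have h2 : (Pr.filter (fun q => κ q ∈ G0)).card
          = ∑ k ∈ G0, ((Pr.filter (fun q => κ q ∈ G0)).filter (fun q => κ q = k)).card :=
        Finset.card_eq_sum_card_fiberwise fun q hq => (mem_filter.mp hq).2
      have h3 : ∀ k ∈ G0, ((Pr.filter (fun q => κ q ∈ G0)).filter (fun q => κ q = k))
          = Pr.filter (fun q => κ q = k) := by
        intro k hk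
        ext q
        simp only [mem_filter]
        constructor
        · rintro ⟨⟨h4, _⟩, h5⟩; exact ⟨h4, h5⟩
        · rintro ⟨h4, h5⟩; exact ⟨⟨h4, h5 ▸ hk⟩, h5⟩
      rw [Finset.sum_congr rfl fun k hk => by rw [← h3 k hk], ← h2]
      exact card_filter_le _ _
    have h4 : (G0.filter (fun k => (Pr.filter (fun q => κ q = k)).card = 1)).card ≤ G.card := by
      refine (Finset.card_le_card ?_).trans (Finset.card_image_le (s := G) (f := κ))
      intro k hk
      obtain ⟨hk1, hk2⟩ := mem_filter.mp hk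
      obtain ⟨q, hq⟩ := Finset.card_eq_one.mp hk2
      have hqm : q ∈ Pr.filter (fun q => κ q = k) := by rw [hq]; exact mem_singleton_self _
      obtain ⟨hq1, hq2⟩ := mem_filter.mp hqm
      refine mem_image.mpr ⟨q, mem_filter.mpr ⟨hq1, ?_, ?_⟩, hq2⟩
      · rw [hq2]; exact hk1
      · rw [hq2]; exact hk2
    have h5 : 2 * G0.card ≤ ∑ k ∈ G0, (Pr.filter (fun q => κ q = k)).card +
        (G0.filter (fun k => (Pr.filter (fun q => κ q = k)).card = 1)).card := by
      have h7 : (G0.filter (fun k => (Pr.filter (fun q => κ q = k)).card = 1)).card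
          = ∑ k ∈ G0, if (Pr.filter (fun q => κ q = k)).card = 1 then 1 else 0 :=
        Finset.card_filter _ _
      rw [h7, ← Finset.sum_add_distrib, mul_comm, ← smul_eq_mul]
      apply Finset.card_nsmul_le_sum
      intro k hk
      have := hfib k hk
      split_ifs with h6
      · omega
      · omega
    omega
  refine ⟨G, B.card, filter_subset _ _, hBle, by omega, ?_⟩
  intro x hx
  obtain ⟨hx1, hx2, hx3⟩ := mem_filter.mp hx
  obtain ⟨hκ1, hκ2⟩ := mem_filter.mp hx2
  refine ⟨(n + κ x).factorization x, e (κ x), κ x, ?_, not_lt.mp hκ2, hSy _ hκ1⟩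
  have hpx := hprod (κ x) hκ1
  obtain ⟨q, hq⟩ := Finset.card_eq_one.mp hx3
  have hxq : x = q := by
    have : x ∈ Pr.filter (fun q' => κ q' = κ x) := mem_filter.mpr ⟨hx1, rfl⟩
    rw [hq] at this
    exact mem_singleton.mp this
  rw [hq, prod_singleton, ← hxq] at hpx
  exact hpx

end Pool.Agent.Y801
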