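import Mathlib
import Pool.Agent.Y801.Cluster
import Pool.Agent.Y801.Comb

set_option autoImplicit false

namespace Pool.Agent.Y801

open Finset

lemma pow_le_three (a x0 w : ℕ) (hx0 : 1 ≤ x0) (h : a * w ≤ x0) :
    (a + x0) ^ w ≤ 3 * x0 ^ w := by
  have hx : (0 : ℝ) < x0 := by exact_mod_cast hx0
  have h1 : ((a : ℝ) + x0) ^ w ≤ 3 * (x0 : ℝ) ^ w := by
    have e1 : (a : ℝ) + x0 = x0 * (a / x0 + 1) := by field_simp
    rw [e1, mul_pow, mul_comm]
    apply mul_le_mul_of_nonneg_right _ (by positivity)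
    calc ((a : ℝ) / x0 + 1) ^ w ≤ (Real.exp (a / x0)) ^ w :=
          pow_le_pow_left₀ (by positivity) (Real.add_one_le_exp _) w
      _ = Real.exp (w * (a / x0)) := by rw [← Real.exp_nat_mul]
      _ ≤ Real.exp 1 := by
          apply Real.exp_le_exp.mpr
          rw [← mul_div_assoc, div_le_one hx, mul_comm]
          exact_mod_cast h
      _ ≤ 3 := Real.exp_one_lt_three.le
  exact_mod_cast h1

lemma pi_lower (m : ℕ) (hm : 1 ≤ m) :
    2 ^ m ≤ m * (Nat.primeCounting (2 ^ m) + 2) := by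
  have h := Chebyshev.pi_ge (2 ^ m)
  have hlog2 : 0 < Real.log 2 := Real.log_pos (by norm_num)
  have hm' : (0 : ℝ) < m := by exact_mod_cast hm
  have hlog : Real.log ((2 ^ m : ℕ) : ℝ) = m * Real.log 2 := by
    push_cast
    rw [Real.log_pow]
  have h1 : Real.log (((2 ^ m : ℕ) : ℝ) + 1) ≤ (m + 1) * Real.log 2 := by
    have : (((2 ^ m : ℕ) : ℝ) + 1) ≤ 2 ^ (m + 1) := by
      push_cast
      rw [pow_succ]
      have : (1 : ℝ) ≤ 2 ^ m := one_le_pow₀ (by norm_num)
      linarith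
    calc Real.log (((2 ^ m : ℕ) : ℝ) + 1) ≤ Real.log (2 ^ (m + 1)) :=
          Real.log_le_log (by positivity) this
      _ = (m + 1) * Real.log 2 := by rw [Real.log_pow]; push_cast; ring
  rw [hlog, div_le_iff₀ (by positivity)] at h
  have h2 : ((2 ^ m : ℕ) : ℝ) * Real.log 2 ≤
      ((m : ℝ) * (Nat.primeCounting (2 ^ m) + 2)) * Real.log 2 := by
    have h3 : (1 : ℝ) ≤ m := by exact_mod_cast hm
    have h4 : Real.log 2 ≤ m * Real.log 2 := by nlinarith
    nlinarith [h, h1]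
  have h3 := le_of_mul_le_mul_right h2 hlog2
  exact_mod_cast h3

lemma card_primeFactors_le (m M : ℕ) (hm : m ≠ 0) (h : m < 2 ^ M) : m.primeFactors.card ≤ M := by
  have h1 : 2 ^ m.primeFactors.card ≤ m := by
    calc 2 ^ m.primeFactors.card = ∏ _p ∈ m.primeFactors, 2 := by rw [prod_const]
      _ ≤ ∏ p ∈ m.primeFactors, p :=
          Finset.prod_le_prod' fun p hp => (Nat.prime_of_mem_primeFactors hp).two_le
      _ ≤ m := Nat.le_of_dvd (Nat.pos_of_ne_zero hm) (Nat.prod_primeFactors_dvd m)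
  exact (Nat.pow_lt_pow_iff_right (by norm_num : 1 < 2)).mp (lt_of_le_of_lt h1 h) |>.le

lemma four_pow (s : ℕ) : 4 ^ (s + 1) = 2 ^ (2 * s + 2) := by
  rw [show 2 * s + 2 = 2 * (s + 1) by ring, pow_mul]; norm_num

lemma growth (s : ℕ) (hs : 21 ≤ s) : 22 * s * (88 * s + 5) < 2 ^ s := by
  induction s, hs using Nat.le_induction with
  | base => norm_num
  | succ s hs ih =>
    rw [pow_succ]
    nlinarith

set_option maxHeartbeats 1000000 in
theorem core (l s n : ℕ) (hl : 1 ≤ l) (hs : 21 ≤ s) (hls : l ≤ 2 ^ s)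
    (hn1 : 2 ^ (4 ^ s) ≤ n) (hn2 : n < 2 ^ (4 ^ (s + 1)))
    (H : ∀ k, l ≤ k → ∀ p q : ℕ, p.Prime → q.Prime → p ∣ n + k → q ∣ n + k → k < p → k < q → p = q) :
    False := by
  classical
  have hgr := growth s hs
  set T := 2 ^ s with hT
  have hT1 : 1 ≤ T := Nat.one_le_two_pow
  have hTT : T * T = 4 ^ s := by rw [hT, ← mul_pow]; norm_num
  have h92 : 92 * s + 6 < T := by nlinarith
  have hmul : (92 * s + 6) * T < 4 ^ s := by
    rw [← hTT]; exact Nat.mul_lt_mul_of_pos_right h92 hT1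
  set y := 2 ^ (22 * s) with hy
  have hnT : 2 ^ T < n := by
    refine lt_of_lt_of_le (Nat.pow_lt_pow_right (by norm_num) ?_) hn1
    exact lt_of_le_of_lt (Nat.le_mul_of_pos_left T (by omega)) hmul
  have hn0 : 0 < n := lt_of_le_of_lt (Nat.zero_le _) hnT
  obtain ⟨G, b, hGsub, hb, hGcard, hG⟩ := many_good l n y T hl hnT H
  set r := ((Nat.primesLE y).filter (fun p => ∃ j < l, p ∣ n + j)).card with hr
  -- bound for b
  have hbb : b ≤ 44 * s * 2 ^ (21 * s) := by
    have h1 : 2 ^ (T * b) ≤ 2 ^ (44 * s * y) := by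
      calc 2 ^ (T * b) = (2 ^ T) ^ b := by rw [pow_mul]
        _ ≤ y.factorial ^ 2 := hb
        _ ≤ (y ^ y) ^ 2 := Nat.pow_le_pow_left (Nat.factorial_le_pow y) 2
        _ = 2 ^ (44 * s * y) := by
            conv_lhs => rw [hy]
            rw [← pow_mul, ← pow_mul]
            congr 1
            ring
    have h2 : T * b ≤ 44 * s * y := (Nat.pow_le_pow_iff_right (by norm_num)).mp h1
    have h3 : y = T * 2 ^ (21 * s) := by rw [hy, hT, ← pow_add]; congr 1; ring
    rw [h3] at h2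
    have h4 : T * b ≤ T * (44 * s * 2 ^ (21 * s)) := by linarith
    exact Nat.le_of_mul_le_mul_left h4 (by omega)
  -- bound for r
  have hrr : r ≤ 2 ^ (3 * s + 3) := by
    have h4s := four_pow s
    have h1 : r ≤ ∑ j ∈ range l, (n + j).primeFactors.card := by
      refine (Finset.card_le_card (t := (range l).biUnion fun j => (n + j).primeFactors) ?_).trans
        Finset.card_biUnion_le
      intro p hp
      obtain ⟨h1, j, hj, hd⟩ := mem_filter.mp hp
      exact mem_biUnion.mpr ⟨j, mem_range.mpr hj,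
        Nat.mem_primeFactors.mpr ⟨Nat.prime_of_mem_primesLE h1, hd, by omega⟩⟩
    have h2 : ∀ j ∈ range l, (n + j).primeFactors.card ≤ 2 ^ (2 * s + 3) := by
      intro j hj
      have hj' := mem_range.mp hj
      refine (card_primeFactors_le (n + j) (4 ^ (s + 1) + 1) (by omega) ?_).trans ?_
      · rw [pow_succ]
        have : j < 2 ^ 4 ^ (s + 1) := by
          calc j < l := hj'
            _ ≤ 2 ^ s := hls
            _ ≤ 2 ^ 4 ^ (s + 1) := by
                apply Nat.pow_le_pow_right (by norm_num)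
                have : s < 4 ^ s := Nat.lt_pow_self (by norm_num)
                have h4 : 4 ^ s ≤ 4 ^ (s + 1) := Nat.pow_le_pow_right (by norm_num) (by omega)
                omega
        omega
      · rw [h4s, pow_succ 2 (2 * s + 2)]
        have : 1 ≤ 2 ^ (2 * s + 2) := Nat.one_le_two_pow
        omega
    have h3 := (h1.trans (Finset.sum_le_card_nsmul _ _ _ h2))
    rw [card_range, smul_eq_mul] at h3
    calc r ≤ l * 2 ^ (2 * s + 3) := h3
      _ ≤ 2 ^ s * 2 ^ (2 * s + 3) := Nat.mul_le_mul_right _ hls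
      _ = 2 ^ (3 * s + 3) := by rw [← pow_add]; congr 1; ring
  -- lower bound for the number of primes
  have hpi : 2 ^ (22 * s) ≤ 22 * s * ((Nat.primesLE y).card + 2) := by
    rw [Nat.primesLE_card_eq_primeCounting]
    exact pi_lower (22 * s) (by omega)
  have hpi2 : (88 * s + 3) * 2 ^ (21 * s) < (Nat.primesLE y).card := by
    by_contra hcon
    have h1 := not_lt.mp hcon
    have h2 : 2 ^ (22 * s) ≤ 22 * s * ((88 * s + 3) * 2 ^ (21 * s) + 2) :=
      hpi.trans (Nat.mul_le_mul_left _ (by omega))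
    have h3 : (88 * s + 3) * 2 ^ (21 * s) + 2 ≤ (88 * s + 5) * 2 ^ (21 * s) := by
      have : 1 ≤ 2 ^ (21 * s) := Nat.one_le_two_pow
      nlinarith
    have h4 : 2 ^ (22 * s) = T * 2 ^ (21 * s) := by rw [hT, ← pow_add]; congr 1; ring
    rw [h4] at h2
    have h5 : T * 2 ^ (21 * s) ≤ (22 * s * (88 * s + 5)) * 2 ^ (21 * s) := by
      calc T * 2 ^ (21 * s) ≤ 22 * s * ((88 * s + 3) * 2 ^ (21 * s) + 2) := h2
        _ ≤ 22 * s * ((88 * s + 5) * 2 ^ (21 * s)) := Nat.mul_le_mul_left _ h3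
        _ = (22 * s * (88 * s + 5)) * 2 ^ (21 * s) := by ring
    have h6 := Nat.le_of_mul_le_mul_right h5 (by positivity)
    omega
  -- large elements of G
  set G' := G.filter (fun x => 2 ^ (21 * s) < x) with hG'
  have hG'card : G.card ≤ G'.card + 2 ^ (21 * s) := by
    have h1 : G'.card + (G.filter (fun x => ¬ 2 ^ (21 * s) < x)).card = G.card :=
      Finset.card_filter_add_card_filter_not _
    have h2 : (G.filter (fun x => ¬ 2 ^ (21 * s) < x)).card ≤ 2 ^ (21 * s) := by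
      calc (G.filter (fun x => ¬ 2 ^ (21 * s) < x)).card ≤ (Icc 1 (2 ^ (21 * s))).card := by
            apply Finset.card_le_card
            intro x hx
            obtain ⟨h3, h4⟩ := mem_filter.mp hx
            have := Nat.two_le_of_mem_primesLE (hGsub h3)
            exact mem_Icc.mpr ⟨by omega, by omega⟩
        _ = 2 ^ (21 * s) := by simp
    omega
  have hG'big : 2 ^ (20 * s + 5) < G'.card := by
    have e1 : 2 * r ≤ 2 ^ (21 * s) := by
      calc 2 * r ≤ 2 * 2 ^ (3 * s + 3) := Nat.mul_le_mul_left _ hrr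
        _ = 2 ^ (3 * s + 4) := by ring
        _ ≤ 2 ^ (21 * s) := Nat.pow_le_pow_right (by norm_num) (by omega)
    have e2 : 2 ^ (20 * s + 5) ≤ 2 ^ (21 * s) := Nat.pow_le_pow_right (by norm_num) (by omega)
    have e3 : (88 * s + 3) * 2 ^ (21 * s)
        = 2 * (44 * s * 2 ^ (21 * s)) + 3 * 2 ^ (21 * s) := by ring
    omega
  -- choose the data
  choose! w e k hwek using hG
  set l6 := 2 ^ (6 * s) with hl6
  set box : ℕ → ℕ × ℕ := fun x => (w x, x / l6) with hbox
  set boxes : Finset (ℕ × ℕ) := range (4 ^ (s + 1) + 1) ×ˢ range (2 ^ (16 * s) + 1) with hboxes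
  have hwle : ∀ x ∈ G, w x ≤ 4 ^ (s + 1) := by
    intro x hx
    obtain ⟨h1, h2, h3⟩ := hwek x hx
    have hx2 := Nat.two_le_of_mem_primesLE (hGsub hx)
    have he1 : 1 ≤ e x := by
      rcases Nat.eq_zero_or_pos (e x) with h | h
      · rw [h] at h1; omega
      · exact h
    have h4 : 2 ^ (w x) < 2 ^ (4 ^ (s + 1) + 1) := by
      calc 2 ^ (w x) ≤ x ^ (w x) := Nat.pow_le_pow_left hx2 _
        _ ≤ x ^ (w x) * e x := Nat.le_mul_of_pos_right _ he1
        _ = n + k x := h1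
        _ < 2 ^ (4 ^ (s + 1) + 1) := by
            have : y ≤ 2 ^ (4 ^ (s + 1)) := by
              rw [hy]
              apply Nat.pow_le_pow_right (by norm_num)
              have h4 : 4 ^ s ≤ 4 ^ (s + 1) := Nat.pow_le_pow_right (by norm_num) (by omega)
              have h5 : 92 * s + 6 ≤ (92 * s + 6) * T := Nat.le_mul_of_pos_right _ hT1
              omega
            rw [pow_succ]
            omega
    have := (Nat.pow_lt_pow_iff_right (by norm_num : 1 < 2)).mp h4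
    omega
  have hmaps : ∀ x ∈ G', box x ∈ boxes := by
    intro x hx
    obtain ⟨h1, h2⟩ := mem_filter.mp hx
    refine mem_product.mpr ⟨mem_range.mpr (Nat.lt_succ_of_le (hwle x h1)), mem_range.mpr ?_⟩
    have h3 : x ≤ y := Nat.le_of_mem_primesLE (hGsub h1)
    show x / l6 < 2 ^ (16 * s) + 1
    apply Nat.lt_succ_of_le
    apply Nat.div_le_of_le_mul
    calc x ≤ y := h3
      _ = l6 * 2 ^ (16 * s) := by rw [hy, hl6, ← pow_add]; congr 1; ring
  have hboxcard : boxes.card * (T * (T + 1)) < G'.card := by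
    refine lt_of_le_of_lt ?_ hG'big
    rw [hboxes, card_product, card_range, card_range]
    have h4s := four_pow s
    have a1 : 4 ^ (s + 1) + 1 ≤ 2 ^ (2 * s + 3) := by
      rw [h4s, pow_succ 2 (2 * s + 2)]
      have : 1 ≤ 2 ^ (2 * s + 2) := Nat.one_le_two_pow
      omega
    have a2 : 2 ^ (16 * s) + 1 ≤ 2 ^ (16 * s + 1) := by
      rw [pow_succ]
      have : 1 ≤ 2 ^ (16 * s) := Nat.one_le_two_pow
      omega
    have a3 : T * (T + 1) ≤ 2 ^ (2 * s + 1) := by
      have : T + 1 ≤ 2 * T := by omega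
      calc T * (T + 1) ≤ T * (2 * T) := Nat.mul_le_mul_left _ this
        _ = 2 ^ (2 * s + 1) := by rw [hT]; ring
    calc (4 ^ (s + 1) + 1) * (2 ^ (16 * s) + 1) * (T * (T + 1))
        ≤ 2 ^ (2 * s + 3) * 2 ^ (16 * s + 1) * 2 ^ (2 * s + 1) :=
          Nat.mul_le_mul (Nat.mul_le_mul a1 a2) a3
      _ = 2 ^ (20 * s + 5) := by rw [← pow_add, ← pow_add]; congr 1; ring
  obtain ⟨⟨w0, c⟩, hc, hcard⟩ :=
    Finset.exists_lt_card_fiber_of_mul_lt_card_of_maps_to hmaps hboxcard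
  set Z := G'.filter (fun x => box x = (w0, c)) with hZ
  have hZG : ∀ x ∈ Z, x ∈ G := fun x hx => (mem_filter.mp (mem_filter.mp hx).1).1
  have hZbig : ∀ x ∈ Z, 2 ^ (21 * s) < x := fun x hx => (mem_filter.mp (mem_filter.mp hx).1).2
  have hZw : ∀ x ∈ Z, w x = w0 := fun x hx => congrArg Prod.fst (mem_filter.mp hx).2
  have hZc : ∀ x ∈ Z, x / l6 = c := fun x hx => congrArg Prod.snd (mem_filter.mp hx).2
  have hl6pos : 0 < l6 := by positivity
  have hZint : ∀ x ∈ Z, c * l6 ≤ x ∧ x ≤ c * l6 + l6 := by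
    intro x hx
    have h1 := hZc x hx
    have h2 := Nat.div_add_mod x l6
    have h3 := Nat.mod_lt x hl6pos
    rw [h1] at h2
    have h4 : l6 * c = c * l6 := mul_comm _ _
    constructor <;> omega
  obtain ⟨z, hz⟩ : Z.Nonempty := Finset.card_pos.mp (by omega)
  obtain ⟨hz1, hz2, hz3⟩ := hwek z (hZG z hz)
  rw [hZw z hz] at hz1
  have hzy : z ≤ y := Nat.le_of_mem_primesLE (hGsub (hZG z hz))
  have hw0 : w0 ≤ 4 ^ (s + 1) := by rw [← hZw z hz]; exact hwle z (hZG z hz)
  have hTw : T ≤ w0 := by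
    by_contra hlt
    have hlt' := not_le.mp hlt
    have h1 : 2 ^ (4 ^ s) ≤ 2 ^ (22 * s * w0 + T) := by
      calc 2 ^ (4 ^ s) ≤ n := hn1
        _ ≤ n + k z := Nat.le_add_right _ _
        _ = z ^ w0 * e z := hz1.symm
        _ ≤ y ^ w0 * 2 ^ T := Nat.mul_le_mul (Nat.pow_le_pow_left hzy _) hz2
        _ = 2 ^ (22 * s * w0 + T) := by rw [hy, ← pow_mul, ← pow_add]
    have h2 : 4 ^ s ≤ 22 * s * w0 + T := (Nat.pow_le_pow_iff_right (by norm_num)).mp h1
    have h3 : 22 * s * w0 ≤ 22 * s * T := Nat.mul_le_mul_left _ hlt'.le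
    have h4 : (22 * s + 1) * T ≤ (92 * s + 6) * T := Nat.mul_le_mul_right _ (by omega)
    have h5 : (22 * s + 1) * T = 22 * s * T + T := by ring
    omega
  have hx0big : 2 ^ (20 * s + 6) ≤ c * l6 := by
    have h1 := hZint z hz
    have h2 := hZbig z hz
    have h3 : 2 ^ (21 * s) = 2 ^ (20 * s + 7) * 2 ^ (s - 7) := by
      rw [← pow_add]; congr 1; omega
    have h4 : 1 ≤ 2 ^ (s - 7) := Nat.one_le_two_pow
    have h5 : 2 ^ (20 * s + 7) ≤ 2 ^ (21 * s) := Nat.pow_le_pow_right (by norm_num) (by omega)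
    have h6 : 2 ^ (20 * s + 7) = 2 * 2 ^ (20 * s + 6) := by ring
    have h7 : l6 ≤ 2 ^ (20 * s + 6) := Nat.pow_le_pow_right (by norm_num) (by omega)
    omega
  have hx0pos : 1 ≤ c * l6 := le_trans Nat.one_le_two_pow hx0big
  have hTT2 : 3 + 25 * s + T * (67 * s + 3) < 4 ^ s := by
    have h5 : 3 + 25 * s ≤ (3 + 25 * s) * T := Nat.le_mul_of_pos_right _ hT1
    have h6 : (92 * s + 6) * T = (3 + 25 * s) * T + T * (67 * s + 3) := by ring
    omega
  refine no_cluster T w0 n (c * l6) l6 y hT1 hTw hx0pos ?_ ?_ ?_ ?_ Z hcard.le hZint e k ?_ ?_ ?_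
  · -- 2 * T ≤ l6
    calc 2 * T = 2 ^ (s + 1) := by rw [hT]; ring
      _ ≤ l6 := Nat.pow_le_pow_right (by norm_num) (by omega)
  · -- y * (16 l^2)^T ≤ n
    refine le_trans ?_ hn1
    have : y * (16 * l6 ^ 2) ^ T = 2 ^ (22 * s + (4 + 12 * s) * T) := by
      have h16 : 16 * l6 ^ 2 = 2 ^ (4 + 12 * s) := by
        rw [hl6, show (16 : ℕ) = 2 ^ 4 by norm_num, ← pow_mul, ← pow_add]; congr 1; ring
      rw [h16, hy, ← pow_mul, ← pow_add]
    rw [this]
    apply Nat.pow_le_pow_right (by norm_num)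
    have h5 : 22 * s ≤ (22 * s) * T := Nat.le_mul_of_pos_right _ hT1
    have h6 : (22 * s) * T + (4 + 12 * s) * T = (34 * s + 4) * T := by ring
    have h7 : (34 * s + 4) * T ≤ (92 * s + 6) * T := Nat.mul_le_mul_right _ (by omega)
    omega
  · apply pow_le_three _ _ _ hx0pos
    refine le_trans ?_ hx0big
    have h4s := four_pow s
    calc 16 * l6 ^ 2 * l6 * w0 ≤ 16 * l6 ^ 2 * l6 * 2 ^ (2 * s + 2) :=
          Nat.mul_le_mul_left _ (h4s ▸ hw0)
      _ = 2 ^ (20 * s + 6) := by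
          rw [hl6, show (16 : ℕ) = 2 ^ 4 by norm_num, ← pow_mul, ← pow_add, ← pow_add, ← pow_add]
          congr 1; ring
  · refine lt_of_lt_of_le ?_ hn1
    have hBle : 1 + (c * l6 + l6) ≤ 2 ^ (22 * s + 1) := by
      have h1 := (hZint z hz).1
      have h2 : l6 < 2 ^ (22 * s) := by
        rw [hl6]; exact Nat.pow_lt_pow_right (by norm_num) (by omega)
      have h3 : 2 ^ (22 * s + 1) = 2 * y := by rw [hy]; ring
      omega
    have hT2 : T ^ 2 = 2 ^ (2 * s) := by rw [hT, ← pow_mul]; congr 1; ring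
    have hT3 : T + 1 ≤ 2 ^ (s + 1) := by
      rw [pow_succ]; omega
    have hfac : T.factorial ≤ 2 ^ (s * T) := by
      calc T.factorial ≤ T ^ T := Nat.factorial_le_pow T
        _ = 2 ^ (s * T) := by
            conv_lhs => rw [hT]
            rw [← pow_mul]
    calc 3 * T ^ 2 * (T + 1) * T.factorial * y * (c * l6 + l6) ^ (2 * T) * (1 + (c * l6 + l6)) ^ T
        ≤ 2 ^ 2 * 2 ^ (2 * s) * 2 ^ (s + 1) * 2 ^ (s * T) * 2 ^ (22 * s) *
            (2 ^ (22 * s + 1)) ^ (2 * T) * (2 ^ (22 * s + 1)) ^ T := by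
          refine Nat.mul_le_mul (Nat.mul_le_mul (Nat.mul_le_mul (Nat.mul_le_mul (Nat.mul_le_mul
            (Nat.mul_le_mul (by norm_num) hT2.le) hT3) hfac) hy.le) (Nat.pow_le_pow_left ?_ _))
            (Nat.pow_le_pow_left hBle _)
          exact (Nat.le_add_left _ _).trans hBle
      _ = 2 ^ (3 + 25 * s + T * (67 * s + 3)) := by
          rw [← pow_mul, ← pow_mul, ← pow_add, ← pow_add, ← pow_add, ← pow_add, ← pow_add,
            ← pow_add]
          congr 1; ring
      _ < 2 ^ (4 ^ s) := Nat.pow_lt_pow_right (by norm_num) hTT2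
  · intro x hx
    have := (hwek x (hZG x hx)).1
    rwa [hZw x hx] at this
  · intro x hx
    exact (hwek x (hZG x hx)).2.1
  · intro x hx
    exact (hwek x (hZG x hx)).2.2

/-- If `log₂ n ≥ 4 ^ 21`, `l ≥ 1` and `4 l ^ 2 ≤ log₂ n`, there is `k ≥ l` such that `n + k` has two
distinct prime factors exceeding `k`. -/
theorem main (l n : ℕ) (hl1 : 1 ≤ l) (hn : 4 ^ 21 ≤ Nat.log 2 n) (hl : 4 * l ^ 2 ≤ Nat.log 2 n) :
    ∃ k ≥ l, ∃ p q : ℕ, p.Prime ∧ q.Prime ∧ p ≠ q ∧ p ∣ n + k ∧ q ∣ n + k ∧ k < p ∧ k < q := by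
  by_contra hcon
  push Not at hcon
  set L := Nat.log 2 n with hL
  set s := Nat.log 4 L with hs
  have hL0 : L ≠ 0 := by
    have : 0 < 4 ^ 21 := by positivity
    omega
  have hn0 : n ≠ 0 := by
    rintro rfl
    exact hL0 (by simp [hL])
  have hss : 21 ≤ s := (Nat.le_log_iff_pow_le (by norm_num) hL0).mpr hn
  have h1 : 4 ^ s ≤ L := Nat.pow_log_le_self 4 hL0
  have h2 : L < 4 ^ (s + 1) := Nat.lt_pow_succ_log_self (by norm_num) L
  have h3 : 2 ^ L ≤ n := Nat.pow_log_le_self 2 hn0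
  have h4 : n < 2 ^ (L + 1) := Nat.lt_pow_succ_log_self (by norm_num) n
  refine core l s n hl1 hss ?_ ?_ ?_ ?_
  · have h5 : l ^ 2 < (2 ^ s) ^ 2 := by
      have h6 : (2 ^ s) ^ 2 = 4 ^ s := by rw [← pow_mul, mul_comm, pow_mul]; norm_num
      rw [h6]
      rw [pow_succ] at h2
      omega
    exact (Nat.pow_lt_pow_iff_left (by norm_num)).mp h5 |>.le
  · exact (Nat.pow_le_pow_right (by norm_num) h1).trans h3
  · exact lt_of_lt_of_le h4 (Nat.pow_le_pow_right (by norm_num) h2)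
  · intro k hk p q hp hq hpd hqd hkp hkq
    by_contra hne
    have := hcon k hk p q hp hq hne hpd hqd hkp
    omega

end Pool.Agent.Y801
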